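import Pool.Agent.H60.HS.Main
import Pool.Graph.R_seed8.Y103.Sq.Final

/-!
# Products of varieties of K3 type with free numbers, and the exchange of two factors
-/

set_option autoImplicit false
set_option linter.unusedSectionVars false

open CategoryTheory AlgebraicGeometry NumberField

universe u v

namespace Pool.Agent.H60.HS

open Pool.Agent.H914 Pool.Agent.H914.VarClass Pool.Agent.H914.VarClass.Obj
  Pool.Agent.H914.WeilCohomology Pool.Agent.H281R3.HT Pool.Agent.W552 Pool.Agent.W534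
  Pool.Agent.Y103.Hk Pool.Agent.Y103.Sh Pool.Agent.Y103.Sq

variable {k : Type u} [Field k] {𝒱 : VarClass k} {ops : CycleOps 𝒱}

section defs

variable {W : WeilCohomology.{u, v} ops} {p : ℕ} [Fact p.Prime]

/-- Finitely many varieties `X i` over a finite field of characteristic `p`, such that the
cohomology of `X i` is spanned by classes of algebraic cycles and by eigenvectors of the Frobenius
endomorphism in the middle degree, with eigenvalues which are given by the conjugates of a free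
number `α i` in the CM field `E i`. The Galois closure of `E j` has totally real intersections with
the images of `E i`, or it is the one exceptional field `L₀ i`, for `i < j`. -/
structure FreeFamily (Φ : FrobSystem W p) (ι : AlgebraicClosure ℚ →+* PadicAlgCl p) where
  /-- the number of the varieties -/
  r : ℕ
  /-- the varieties -/
  X : Fin r → 𝒱.Obj
  /-- the fields -/
  E : Fin r → Type
  [field : ∀ i, Field (E i)]
  [numberField : ∀ i, NumberField (E i)]
  [cm : ∀ i, IsCMField (E i)]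
  /-- the exponents -/
  e : Fin r → ℕ
  /-- the numbers -/
  α : ∀ i, E i
  isFree : ∀ i, IsFreeNumber ι (α i)
  isSpanned : ∀ i, IsSpannedByNumber Φ (X i) (e i) (α i)
  /-- the exceptional fields -/
  L₀ : Fin r → IntermediateField ℚ (AlgebraicClosure ℚ)
  isStable : ∀ i, IsStable (L₀ i)
  isAllowed : ∀ i j, i < j → IsAllowed (E i) (L₀ i) (galoisClosure (E j))

attribute [instance] FreeFamily.field FreeFamily.numberField FreeFamily.cm

variable {Φ : FrobSystem W p} {ι : AlgebraicClosure ℚ →+* PadicAlgCl p}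

/-- The cycle `D` is a divisor on `X` with `D ^ (dim X) > 0` for which the hard Lefschetz theorem and
the conjecture of Hodge type hold. -/
structure IsGoodFactor (W : WeilCohomology.{u, v} ops) (P : Polarized 𝒱) : Prop where
  isDivisor : P.X.IsCyc 1 P.D
  deg_pos : 0 < P.X.V.degCycle (divPow ops P.D P.X.dim P.X.V.fundCycle)
  hardLefschetz : HardLefschetz W P.X P.D
  hodge : ∀ j, HodgeTypeIn W P j

/-- The member `X (idx a)` with the divisor `D a`. -/
abbrev FreeFamily.factor (F : FreeFamily Φ ι) {n : ℕ} {idx : Fin (n + 1) → Fin F.r}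
    (D : ∀ a, (F.X (idx a)).Cycles) (a : Fin (n + 1)) : Polarized 𝒱 :=
  ⟨F.X (idx a), D a⟩

/-- The eigenvectors for each conjugate of `α i` are multiples of each other, or the Tate conjecture
holds for `X i × X i` (in the codimension `dim (X i)`) and the conjecture of Hodge type holds for
`X i × X i`, with the given divisors. -/
def FreeFamily.GoodPairs (F : FreeFamily Φ ι) {n : ℕ} {idx : Fin (n + 1) → Fin F.r}
    (D : ∀ a, (F.X (idx a)).Cycles) (i : Fin F.r) : Prop :=
  (∀ σ, OnLine W.K (letters Φ (F.X i) (F.e i) (F.α i) σ)) ∨ (TateSquare Φ (F.X i) ∧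
    ∀ a b, idx a = i → idx b = i → ∀ j, HodgeTypeIn W ((F.factor D a).prod ops (F.factor D b)) j)

/-- The polarized variety `Q` is a product of members of the family: `n + 1` factors `X (idx a)`,
with divisors `D a` as in `IsGoodFactor` and `GoodPairs`; the exceptional fields are small with
respect to the numbers of the copies. -/
def FreeFamily.IsProduct (F : FreeFamily Φ ι) (Q : Polarized 𝒱) : Prop :=
  ∃ (n : ℕ) (idx : Fin (n + 1) → Fin F.r) (D : ∀ a, (F.X (idx a)).Cycles),
    Q = nest ops n (fun a => F.factor D a) ∧ (∀ a, IsGoodFactor W (F.factor D a)) ∧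
    (∀ i, F.GoodPairs D i) ∧ ∀ i, SmallIntersection (F.E i) (F.L₀ i) (copies idx i)

/-- The slopes of `U` are products of slopes in Galois fields which have totally real intersections
with the fields `E i` (or are the exceptional field of `E i`). -/
def FreeFamily.IsIndependent (F : FreeFamily Φ ι) (U : Polarized 𝒱) : Prop :=
  ∃ 𝓛 : Set (IntermediateField ℚ (AlgebraicClosure ℚ)),
    (∀ i, ∀ L ∈ 𝓛, IsAllowed (F.E i) (F.L₀ i) L) ∧ HasSlopes Φ ι 𝓛 U.X

end defs

variable {W : WeilCohomology.{u, v} ops}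

lemma hodgeType_iff {P : Polarized 𝒱} : HodgeType W P.X P.D ↔ ∀ j, HodgeTypeIn W P j :=
  ⟨fun h j hj z hz hp h0 => h j hj z hz hp h0, fun h j hj z hz hp h0 => h j hj z hz hp h0⟩

section swap

/-- The exchange of the factors does not change the orientation. -/
theorem tr_exch {A Z : 𝒱.Obj} (z : W.H (Z.prod A)) : W.tr (A.prod Z) (W.map (swap A Z) z) =
    W.tr (Z.prod A) z := by
  refine W.kunneth_induction (p := fun z => W.tr (A.prod Z) (W.map (swap A Z) z) =
    W.tr (Z.prod A) z) ?_ ?_ z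
  · intro a b ha hb
    rw [map_add, map_add, map_add, ha, hb]
  · intro i j y hy x hx
    have e1 : W.map (swap A Z) (W.map (fst Z A) y * W.map (snd Z A) x) =
        W.map (snd A Z) y * W.map (fst A Z) x := by
      rw [map_mul, ← W.map_comp, ← W.map_comp, swap, lift_fst, lift_snd]
    rw [e1, W.comm (W.map_mem (snd A Z) hy) (W.map_mem (fst A Z) hx), map_smul, W.tr_prod,
      W.tr_prod]
    by_cases hi : i = 2 * Z.dim
    · subst hi
      rw [show (-1 : W.K) ^ (2 * Z.dim * j) = 1 by rw [mul_assoc, pow_mul]; simp, one_smul,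
        mul_comm]
    · rw [W.tr_eq_zero hy hi, zero_mul, mul_zero, smul_zero]

/-- The self-intersection number in the cohomology ring. -/
lemma hodgeSq_cast {P : Polarized 𝒱} (hD : P.X.IsCyc 1 P.D) {j : ℕ} (hj : 2 * j ≤ P.X.dim)
    {z : P.X.Cycles} (hz : P.X.IsCyc j z) :
    ((hodgeSq ops P j z : ℚ) : W.K) = (-1) ^ j * W.tr P.X (W.cl P.X z *
      ((W.cl P.X P.D) ^ (P.X.dim - 2 * j) * W.cl P.X z)) := by
  have e1 := ops.mul_mem hz (divPow_mem (ops := ops) hD (P.X.dim - 2 * j) hz)
  rw [show j + (j + (P.X.dim - 2 * j)) = P.X.dim by omega] at e1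
  rw [hodgeSq]
  push_cast
  rw [← W.tr_cl e1, W.cl_mul, cl_divPow, LinearMap.pow_mulLeft, LinearMap.mulLeft_apply]

lemma primClass_iff {P : Polarized 𝒱} {j : ℕ} {z : P.X.Cycles} : PrimClass W P j z ↔
    (W.cl P.X P.D) ^ (P.X.dim - 2 * j + 1) * W.cl P.X z = 0 := by
  rw [PrimClass, cl_divPow, LinearMap.pow_mulLeft, LinearMap.mulLeft_apply]

/-- The conjecture of Hodge type does not depend on the order of the factors. -/
theorem hodge_exch {P Q : Polarized 𝒱} (hP : P.X.IsCyc 1 P.D) (hQ : Q.X.IsCyc 1 Q.D) {j : ℕ}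
    (h : HodgeTypeIn W (P.prod ops Q) j) : HodgeTypeIn W (Q.prod ops P) j := by
  have hdim : (Q.X.prod P.X).dim = (P.X.prod Q.X).dim := by
    rw [dim_prod, dim_prod, add_comm]
  have hPQ : (P.X.prod Q.X).IsCyc 1 (P.prod ops Q).D :=
    (ops.pull_mem _ hP).add (ops.pull_mem _ hQ)
  have hQP : (Q.X.prod P.X).IsCyc 1 (Q.prod ops P).D :=
    (ops.pull_mem _ hQ).add (ops.pull_mem _ hP)
  have hD : W.map (swap P.X Q.X) (W.cl (Q.X.prod P.X) (Q.prod ops P).D) =
      W.cl (P.X.prod Q.X) (P.prod ops Q).D := by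
    change W.map (swap P.X Q.X) (W.cl (Q.X.prod P.X)
        (ops.pull (fst Q.X P.X) Q.D + ops.pull (snd Q.X P.X) P.D)) =
      W.cl (P.X.prod Q.X) (ops.pull (fst P.X Q.X) P.D + ops.pull (snd P.X Q.X) Q.D)
    rw [map_add, map_add, W.cl_pull, W.cl_pull, ← W.map_comp, ← W.map_comp, swap, lift_fst,
      lift_snd, map_add, W.cl_pull, W.cl_pull, add_comm]
  intro hj z hz hp h0
  have hj' : 2 * j ≤ (P.X.prod Q.X).dim := by rw [← hdim]; exact hj
  have hz' : (P.X.prod Q.X).IsCyc j (ops.pull (swap P.X Q.X) z) := ops.pull_mem _ hz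
  have hcl : W.cl (P.X.prod Q.X) (ops.pull (swap P.X Q.X) z) =
      W.map (swap P.X Q.X) (W.cl (Q.X.prod P.X) z) := W.cl_pull _ z
  have hp' : PrimClass W (P.prod ops Q) j (ops.pull (swap P.X Q.X) z) := by
    rw [primClass_iff] at hp ⊢
    change (W.cl (P.X.prod Q.X) (P.prod ops Q).D) ^ ((P.X.prod Q.X).dim - 2 * j + 1) *
      W.cl (P.X.prod Q.X) (ops.pull (swap P.X Q.X) z) = 0
    rw [hcl, ← hD, ← map_pow (W.map (swap P.X Q.X)), ← map_mul (W.map (swap P.X Q.X)), ← hdim]
    change (W.cl (Q.X.prod P.X) (Q.prod ops P).D) ^ ((Q.X.prod P.X).dim - 2 * j + 1) *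
      W.cl (Q.X.prod P.X) z = 0 at hp
    rw [hp, map_zero]
  have h0' : W.cl (P.X.prod Q.X) (ops.pull (swap P.X Q.X) z) ≠ 0 := by
    intro hc
    apply h0
    change W.cl (Q.X.prod P.X) z = 0
    rw [← swap_swap (W := W) (X := Q.X) (Y := P.X) (W.cl (Q.X.prod P.X) z), ← hcl, hc, map_zero]
  have hpos := h hj' _ hz' hp' h0'
  have e : hodgeSq ops (Q.prod ops P) j z =
      hodgeSq ops (P.prod ops Q) j (ops.pull (swap P.X Q.X) z) := by
    apply Rat.cast_injective (α := W.K)
    refine (hodgeSq_cast (W := W) (P := Q.prod ops P) hQP hj hz).trans (Eq.trans ?_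
      (hodgeSq_cast (W := W) (P := P.prod ops Q) hPQ hj' hz').symm)
    congr 1
    change W.tr (Q.X.prod P.X) (W.cl (Q.X.prod P.X) z * (W.cl (Q.X.prod P.X) (Q.prod ops P).D ^
        ((Q.X.prod P.X).dim - 2 * j) * W.cl (Q.X.prod P.X) z)) =
      W.tr (P.X.prod Q.X) (W.cl (P.X.prod Q.X) (ops.pull (swap P.X Q.X) z) *
        (W.cl (P.X.prod Q.X) (P.prod ops Q).D ^ ((P.X.prod Q.X).dim - 2 * j) *
        W.cl (P.X.prod Q.X) (ops.pull (swap P.X Q.X) z)))
    rw [hcl, ← hD, ← map_pow (W.map (swap P.X Q.X)), ← map_mul (W.map (swap P.X Q.X)),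
      ← map_mul (W.map (swap P.X Q.X)), tr_exch, hdim]
  rw [e]
  exact hpos

end swap

variable {p : ℕ} [Fact p.Prime] {Φ : FrobSystem W p} {ι : AlgebraicClosure ℚ →+* PadicAlgCl p}

/-- The conjecture of Hodge type for the products of the members of the family. -/
theorem FreeFamily.IsProduct.hodge [IsAlgClosed W.K] {F : FreeFamily Φ ι} {Q : Polarized 𝒱}
    (h : F.IsProduct Q) : (∀ j, HodgeTypeIn W Q j) ∧
      ∀ U : Polarized 𝒱, F.IsIndependent U → U.X.IsCyc 1 U.D → HardLefschetz W U.X U.D →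
        (∀ j, HodgeTypeIn W U j) → ∀ j, HodgeTypeIn W (U.prod ops Q) j := by
  obtain ⟨n, idx, D, rfl, hD, hp, hs⟩ := h
  have key := fun (𝓛 : Set (IntermediateField ℚ (AlgebraicClosure ℚ)))
    (h𝓛 : ∀ i, ∀ L ∈ 𝓛, IsAllowed (F.E i) (F.L₀ i) L) =>
    final_hodge2 (W := W) (Φ := Φ) (ι := ι) (X := F.X) (e := F.e) (E := F.E) (α := F.α)
      F.isFree F.isSpanned (n := n) (idx := idx) (D := D) (fun a => (hD a).isDivisor)
      (fun a => (hD a).deg_pos) (fun a => (hD a).hardLefschetz)
      (fun a => hodgeType_iff.2 (hD a).hodge)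
      (fun i => (hp i).imp_right (And.imp_right fun h a b ha hb => hodgeType_iff.2 (h a b ha hb)))
      (L₀ := F.L₀) (𝓛 := 𝓛) (fun i => ⟨F.isStable i, hs i⟩) h𝓛 F.isAllowed
  refine ⟨hodgeType_iff.1 (key ∅ (fun i L hL => absurd hL (Set.notMem_empty L))).2.1, ?_⟩
  rintro U ⟨𝓛, h𝓛, hU⟩ hUD hUL hUH j
  have hdiv : ∀ (n : ℕ) (P : Fin (n + 1) → Polarized 𝒱), (∀ a, (P a).X.IsCyc 1 (P a).D) →
      (nest ops n P).X.IsCyc 1 (nest ops n P).D := by
    intro n
    induction n with
    | zero => exact fun P hP => hP 0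
    | succ n ih =>
      intro P hP
      exact (ops.pull_mem _ (hP 0)).add (ops.pull_mem _ (ih _ fun a => hP a.succ))
  exact hodge_exch (hdiv n _ fun a => (hD a).isDivisor) hUD
    (hodgeType_iff.1 (((key 𝓛 h𝓛).2.2 U hU hUD hUL).2 (hodgeType_iff.2 hUH)) j)

end Pool.Agent.H60.HS
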