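import Mathlib

/-!
# Functionals on polynomials: positivity transfers along a common annihilating polynomial

Let `L'` be a functional on `ℚ[X]` which is positive on the squares `f ^ 2` and on the products
`X f ^ 2` modulo an ideal `(P)` on which it vanishes. Then the roots of `P` are simple, real and
positive. If `L` is another functional which vanishes on `(P)`, is nonnegative on the products
`X f ^ 2` and positive on `X`, then it is positive on `1`.
-/

open Polynomial Finset

namespace Pool.Agent.H60.HS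

section Poly

variable {F : Type*} [Field F]

/-- The polynomial with given coefficients. -/
noncomputable def pol {n : ℕ} (a : Fin n → F) : F[X] := ∑ i, C (a i) * X ^ (i : ℕ)

lemma pol_coeff (f : F[X]) {n : ℕ} (hn : f.natDegree < n) :
    pol (fun i : Fin n => f.coeff i) = f := by
  rw [pol, Fin.sum_univ_eq_sum_range (fun i => C (f.coeff i) * X ^ i) n]
  exact (Polynomial.as_sum_range_C_mul_X_pow' _ hn).symm

lemma coeff_pol {n : ℕ} (a : Fin n → F) (i : Fin n) : (pol a).coeff i = a i := by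
  rw [pol, finsetSum_coeff]
  simp only [coeff_C_mul, coeff_X_pow]
  rw [Finset.sum_eq_single i]
  · simp
  · intro j _ hj
    rw [if_neg (fun h => hj (Fin.ext h.symm)), mul_zero]
  · intro h; exact absurd (Finset.mem_univ _) h

lemma pol_ne_zero {n : ℕ} {a : Fin n → F} (ha : a ≠ 0) : pol a ≠ 0 := by
  intro h
  apply ha
  funext i
  rw [← coeff_pol a i, h]
  simp

lemma natDegree_pol_lt {n : ℕ} (hn : 0 < n) (a : Fin n → F) : (pol a).natDegree < n := by
  have h1 : (pol a).natDegree ≤ n - 1 := by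
    apply natDegree_sum_le_of_forall_le
    intro i _
    refine (natDegree_C_mul_X_pow_le _ _).trans ?_
    omega
  omega

lemma form_pol (Λ : F[X] →ₗ[F] F) (Q : F[X]) {n : ℕ} (a b : Fin n → F) :
    Λ (Q * (pol a * pol b)) =
      ∑ i, a i * ∑ j : Fin n, (Λ (Q * X ^ ((i : ℕ) + (j : ℕ)))) * b j := by
  rw [pol, pol, Finset.sum_mul, Finset.mul_sum, map_sum]
  apply Finset.sum_congr rfl
  intro i _
  rw [Finset.mul_sum, Finset.mul_sum, map_sum, Finset.mul_sum]
  apply Finset.sum_congr rfl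
  intro j _
  have h1 : Q * (C (a i) * X ^ (i : ℕ) * (C (b j) * X ^ (j : ℕ))) =
      (a i * b j) • (Q * X ^ ((i : ℕ) + (j : ℕ))) := by
    rw [Polynomial.smul_eq_C_mul, C_mul, pow_add]
    ring
  rw [h1, map_smul, smul_eq_mul]
  ring

end Poly

/-- The extension of a functional to real polynomials. -/
noncomputable def rext (L : ℚ[X] →ₗ[ℚ] ℚ) : ℝ[X] →ₗ[ℝ] ℝ :=
  (basisMonomials ℝ).constr ℝ (fun k => ((L (X ^ k) : ℚ) : ℝ))

lemma rext_X_pow (L : ℚ[X] →ₗ[ℚ] ℚ) (k : ℕ) : rext L (X ^ k) = ((L (X ^ k) : ℚ) : ℝ) := by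
  have h := (basisMonomials ℝ).constr_basis ℝ (fun k => ((L (X ^ k) : ℚ) : ℝ)) k
  rw [coe_basisMonomials] at h
  rw [rext, X_pow_eq_monomial]
  exact h

lemma rext_map (L : ℚ[X] →ₗ[ℚ] ℚ) (f : ℚ[X]) :
    rext L (f.map (algebraMap ℚ ℝ)) = ((L f : ℚ) : ℝ) := by
  induction f using Polynomial.induction_on' with
  | add p q hp hq => rw [Polynomial.map_add, map_add, hp, hq, map_add, Rat.cast_add]
  | monomial n a =>
    have h1 : (monomial n a : ℚ[X]) = a • X ^ n := by
      rw [Polynomial.smul_eq_C_mul, C_mul_X_pow_eq_monomial]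
    rw [h1, Polynomial.smul_eq_C_mul, Polynomial.map_mul, Polynomial.map_C, Polynomial.map_pow,
      Polynomial.map_X, ← Polynomial.smul_eq_C_mul, map_smul, rext_X_pow,
      ← Polynomial.smul_eq_C_mul, map_smul]
    simp

lemma rext_mul_zero {L : ℚ[X] →ₗ[ℚ] ℚ} {P : ℚ[X]} (h : ∀ g, L (P * g) = 0) (g : ℝ[X]) :
    rext L (P.map (algebraMap ℚ ℝ) * g) = 0 := by
  induction g using Polynomial.induction_on' with
  | add p q hp hq => rw [mul_add, map_add, hp, hq, add_zero]
  | monomial n a =>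
    have h1 : P.map (algebraMap ℚ ℝ) * (monomial n a : ℝ[X]) =
        a • ((P * X ^ n).map (algebraMap ℚ ℝ)) := by
      rw [Polynomial.smul_eq_C_mul, Polynomial.map_mul, Polynomial.map_pow, Polynomial.map_X,
        ← C_mul_X_pow_eq_monomial]
      ring
    rw [h1, map_smul, rext_map, h, Rat.cast_zero, smul_zero]

lemma rext_form (L : ℚ[X] →ₗ[ℚ] ℚ) (Q : ℚ[X]) {n : ℕ} (a b : Fin n → ℝ) :
    rext L (Q.map (algebraMap ℚ ℝ) * (pol a * pol b)) =
      ∑ i, a i * ∑ j : Fin n, ((L (Q * X ^ ((i : ℕ) + (j : ℕ))) : ℚ) : ℝ) * b j := by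
  rw [form_pol]
  have h : ∀ m : ℕ, rext L (Q.map (algebraMap ℚ ℝ) * X ^ m) = ((L (Q * X ^ m) : ℚ) : ℝ) := by
    intro m
    rw [← rext_map, Polynomial.map_mul, Polynomial.map_pow, Polynomial.map_X]
  simp only [h]

lemma rext_nonneg {L : ℚ[X] →ₗ[ℚ] ℚ} {Q : ℚ[X]} {n : ℕ}
    (h : ∀ v : Fin n → ℚ, 0 ≤ L (Q * (pol v * pol v))) (a : Fin n → ℝ) :
    0 ≤ rext L (Q.map (algebraMap ℚ ℝ) * (pol a * pol a)) := by
  have hd : DenseRange (Pi.map (fun (_ : Fin n) (q : ℚ) => (q : ℝ))) :=
    DenseRange.piMap (fun _ => Rat.denseRange_cast)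
  refine hd.induction_on (p := fun a => 0 ≤ rext L (Q.map (algebraMap ℚ ℝ) * (pol a * pol a)))
    a ?_ ?_
  · simp only [rext_form]
    apply isClosed_le continuous_const
    fun_prop
  · intro v
    rw [rext_form]
    have h1 := h v
    rw [form_pol] at h1
    have h2 : (0 : ℝ) ≤ ((∑ i, v i * ∑ j : Fin n, (L (Q * X ^ ((i : ℕ) + (j : ℕ)))) * v j : ℚ) : ℝ) := by
      exact_mod_cast h1
    push_cast at h2
    exact h2

/-- Positivity over the rational numbers implies positivity over the real numbers. -/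
lemma rext_pos {L : ℚ[X] →ₗ[ℚ] ℚ} {Q : ℚ[X]} {n : ℕ}
    (h : ∀ v : Fin n → ℚ, v ≠ 0 → 0 < L (Q * (pol v * pol v))) {a : Fin n → ℝ} (ha : a ≠ 0) :
    0 < rext L (Q.map (algebraMap ℚ ℝ) * (pol a * pol a)) := by
  classical
  have hnn : ∀ v : Fin n → ℚ, 0 ≤ L (Q * (pol v * pol v)) := by
    intro v
    by_cases hv : v = 0
    · subst hv
      simp [pol]
    · exact (h v hv).le
  have hR := rext_nonneg hnn
  refine lt_of_le_of_ne (hR a) (fun h0 => ?_)
  let G : Matrix (Fin n) (Fin n) ℚ := Matrix.of fun i j => L (Q * X ^ ((i : ℕ) + (j : ℕ)))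
  -- the kernel
  have hker : ∀ b : Fin n → ℝ, rext L (Q.map (algebraMap ℚ ℝ) * (pol b * pol a)) = 0 := by
    intro b
    set B : ℝ := rext L (Q.map (algebraMap ℚ ℝ) * (pol b * pol a)) with hB
    set C' : ℝ := rext L (Q.map (algebraMap ℚ ℝ) * (pol b * pol b)) with hC
    have hsymm : rext L (Q.map (algebraMap ℚ ℝ) * (pol a * pol b)) = B := by
      rw [hB, mul_comm (pol a)]
    have hpa : ∀ t : ℝ, pol (fun i => a i + t * b i) = pol a + t • pol b := by
      intro t
      rw [pol, pol, pol, Finset.smul_sum, ← Finset.sum_add_distrib]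
      apply Finset.sum_congr rfl
      intro i _
      rw [C_add, C_mul, Polynomial.smul_eq_C_mul]
      ring
    have key : ∀ t : ℝ, 0 ≤ 2 * t * B + t * t * C' := by
      intro t
      have h1 := hR (fun i => a i + t * b i)
      rw [hpa] at h1
      have h2 : Q.map (algebraMap ℚ ℝ) * ((pol a + t • pol b) * (pol a + t • pol b)) =
          Q.map (algebraMap ℚ ℝ) * (pol a * pol a) +
          (t • (Q.map (algebraMap ℚ ℝ) * (pol a * pol b)) +
            t • (Q.map (algebraMap ℚ ℝ) * (pol b * pol a)) +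
            (t * t) • (Q.map (algebraMap ℚ ℝ) * (pol b * pol b))) := by
        simp only [Polynomial.smul_eq_C_mul, C_mul]
        ring
      rw [h2] at h1
      simp only [map_add, map_smul, smul_eq_mul, hsymm, ← h0] at h1
      rw [← hB, ← hC] at h1
      linarith
    by_contra hne
    have hB2 : 0 < B * B := mul_self_pos.2 hne
    have hC0 : 0 ≤ C' := hR b
    have h3 := key (-B / (C' + 1))
    have h4 : 0 < C' + 1 := by linarith
    have h5 : 2 * (-B / (C' + 1)) * B + -B / (C' + 1) * (-B / (C' + 1)) * C' =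
        -(B * B) * (C' + 2) / ((C' + 1) * (C' + 1)) := by
      field_simp
      ring
    rw [h5] at h3
    have h6 : -(B * B) * (C' + 2) / ((C' + 1) * (C' + 1)) < 0 := by
      apply div_neg_of_neg_of_pos
      · nlinarith
      · positivity
    linarith
  have hG : (G.map (algebraMap ℚ ℝ)).mulVec a = 0 := by
    funext i
    have h1 := hker (Pi.single i 1)
    rw [rext_form, Finset.sum_eq_single i] at h1
    · rw [Pi.single_eq_same, one_mul] at h1
      exact h1
    · intro j _ hj
      rw [Pi.single_eq_of_ne hj, zero_mul]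
    · intro h; exact absurd (Finset.mem_univ _) h
  have hdet : (G.map (algebraMap ℚ ℝ)).det = 0 :=
    Matrix.exists_mulVec_eq_zero_iff.1 ⟨a, ha, hG⟩
  have hdet' : G.det = 0 := by
    have h1 : ((algebraMap ℚ ℝ) G.det) = 0 := by
      rw [RingHom.map_det]; exact hdet
    exact (map_eq_zero _).1 h1
  obtain ⟨v, hv, hGv⟩ := Matrix.exists_mulVec_eq_zero_iff.2 hdet'
  have h1 := h v hv
  rw [form_pol] at h1
  have h2 : ∀ i : Fin n, ∑ j : Fin n, (L (Q * X ^ ((i : ℕ) + (j : ℕ)))) * v j = 0 := fun i =>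
    congrFun hGv i
  simp only [h2, mul_zero, Finset.sum_const_zero] at h1
  exact lt_irrefl _ h1

/-- Positivity over the rational numbers implies positivity over the real numbers. -/
lemma rext_pos' {L : ℚ[X] →ₗ[ℚ] ℚ} {Q P : ℚ[X]} (_hP : P ≠ 0)
    (h : ∀ f, ¬ P ∣ f → 0 < L (Q * (f * f))) {g : ℝ[X]} (hg : g ≠ 0)
    (hgd : g.natDegree < P.natDegree) :
    0 < rext L (Q.map (algebraMap ℚ ℝ) * (g * g)) := by
  rw [← pol_coeff g hgd]
  apply rext_pos
  · intro v hv
    apply h
    intro hdvd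
    have h1 := Polynomial.natDegree_le_of_dvd hdvd (pol_ne_zero hv)
    have h2 := natDegree_pol_lt (by omega) v
    omega
  · intro h0
    apply hg
    rw [← pol_coeff g hgd, h0, pol]
    simp

section Roots

variable {L : ℚ[X] →ₗ[ℚ] ℚ} {P : ℚ[X]} (hP : P ≠ 0) (h0 : ∀ g, L (P * g) = 0)
  (h1 : ∀ f, ¬ P ∣ f → 0 < L (f * f)) (h2 : ∀ f, ¬ P ∣ f → 0 < L (X * (f * f)))

include hP h1

lemma pos_one {g : ℝ[X]} (hg : g ≠ 0) (hgd : g.natDegree < P.natDegree) :
    0 < rext L (g * g) := by
  have := rext_pos' (Q := 1) hP (by simpa using h1) hg hgd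
  simpa using this

include h0

/-- There are no roots outside of the real line. -/
lemma no_complex {z : ℂ} (hz : aeval z (P.map (algebraMap ℚ ℝ)) = 0) : z.im = 0 := by
  by_contra him
  have hPR : P.map (algebraMap ℚ ℝ) ≠ 0 := by
    rwa [Ne, Polynomial.map_eq_zero]
  obtain ⟨g, hg⟩ := quadratic_dvd_of_aeval_eq_zero_im_ne_zero _ hz him
  have hg0 : g ≠ 0 := by rintro rfl; apply hPR; rw [hg, mul_zero]
  have hq : (X ^ 2 - C (2 * z.re) * X + C (‖z‖ ^ 2) : ℝ[X]) =
      (X - C z.re) * (X - C z.re) + C (z.im * z.im) := by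
    have h3 : ‖z‖ ^ 2 = z.re * z.re + z.im * z.im := by
      rw [← Complex.normSq_eq_norm_sq, Complex.normSq_apply]
    rw [h3]
    simp only [C_add, C_mul, C_ofNat]
    ring
  have hdeg : (X ^ 2 - C (2 * z.re) * X + C (‖z‖ ^ 2) : ℝ[X]).natDegree = 2 := by
    compute_degree!
  have hq0 : (X ^ 2 - C (2 * z.re) * X + C (‖z‖ ^ 2) : ℝ[X]) ≠ 0 := by
    intro h; rw [h] at hdeg; simp at hdeg
  have hd : P.natDegree = 2 + g.natDegree := by
    rw [← natDegree_map (algebraMap ℚ ℝ), hg, natDegree_mul hq0 hg0, hdeg]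
  have e1 := rext_mul_zero h0 g
  rw [hg, hq] at e1
  have e2 : ((X - C z.re) * (X - C z.re) + C (z.im * z.im)) * g * g =
      ((X - C z.re) * g) * ((X - C z.re) * g) + (z.im * z.im) • (g * g) := by
    rw [Polynomial.smul_eq_C_mul]; ring
  rw [e2, map_add, map_smul, smul_eq_mul] at e1
  have hxg : (X - C z.re) * g ≠ 0 := mul_ne_zero (X_sub_C_ne_zero _) hg0
  have e3 : 0 < rext L (((X - C z.re) * g) * ((X - C z.re) * g)) := by
    apply pos_one hP h1 hxg
    rw [natDegree_mul (X_sub_C_ne_zero _) hg0, natDegree_X_sub_C, hd]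
    omega
  have e4 : 0 < rext L (g * g) := pos_one hP h1 hg0 (by omega)
  have e5 : 0 < z.im * z.im := mul_self_pos.2 him
  nlinarith [mul_pos e5 e4]

/-- The roots are simple. -/
lemma nodup_roots : (P.map (algebraMap ℚ ℝ)).roots.Nodup := by
  have hPR : P.map (algebraMap ℚ ℝ) ≠ 0 := by
    rwa [Ne, Polynomial.map_eq_zero]
  rw [Multiset.nodup_iff_count_le_one]
  intro r
  rw [count_roots]
  by_contra hcon
  have hcon : 2 ≤ rootMultiplicity r (P.map (algebraMap ℚ ℝ)) := by omega
  obtain ⟨g, hg⟩ := (le_rootMultiplicity_iff hPR).1 hcon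
  have hg0 : g ≠ 0 := by rintro rfl; apply hPR; rw [hg, mul_zero]
  have hd : P.natDegree = 2 + g.natDegree := by
    rw [← natDegree_map (algebraMap ℚ ℝ), hg, natDegree_mul (pow_ne_zero _ (X_sub_C_ne_zero _)) hg0,
      natDegree_pow, natDegree_X_sub_C]
  have e1 := rext_mul_zero h0 g
  rw [hg] at e1
  have e2 : (X - C r) ^ 2 * g * g = ((X - C r) * g) * ((X - C r) * g) := by ring
  rw [e2] at e1
  have e3 : 0 < rext L (((X - C r) * g) * ((X - C r) * g)) := by
    apply pos_one hP h1 (mul_ne_zero (X_sub_C_ne_zero _) hg0)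
    rw [natDegree_mul (X_sub_C_ne_zero _) hg0, natDegree_X_sub_C, hd]
    omega
  rw [e1] at e3
  exact lt_irrefl _ e3

include h2

/-- The real roots are positive. -/
lemma pos_roots {r : ℝ} (hr : (P.map (algebraMap ℚ ℝ)).IsRoot r) : 0 < r := by
  have hPR : P.map (algebraMap ℚ ℝ) ≠ 0 := by
    rwa [Ne, Polynomial.map_eq_zero]
  obtain ⟨g, hg⟩ := dvd_iff_isRoot.2 hr
  have hg0 : g ≠ 0 := by rintro rfl; apply hPR; rw [hg, mul_zero]
  have hd : P.natDegree = 1 + g.natDegree := by
    rw [← natDegree_map (algebraMap ℚ ℝ), hg, natDegree_mul (X_sub_C_ne_zero _) hg0,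
      natDegree_X_sub_C]
  have e1 := rext_mul_zero h0 g
  rw [hg] at e1
  have e2 : (X - C r) * g * g = X * (g * g) - r • (g * g) := by
    rw [Polynomial.smul_eq_C_mul]; ring
  rw [e2, map_sub, map_smul, smul_eq_mul] at e1
  have e3 : 0 < rext L (g * g) := pos_one hP h1 hg0 (by omega)
  have e4 := rext_pos' (Q := X) hP h2 hg0 (by omega)
  rw [Polynomial.map_X] at e4
  by_contra hneg
  nlinarith [mul_nonneg (neg_nonneg.2 (not_lt.1 hneg)) e3.le]

/-- The polynomial divides a product of distinct linear factors with positive roots. -/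
lemma exists_finset : ∃ s : Finset ℝ, (∀ r ∈ s, 0 < r) ∧
    P.map (algebraMap ℚ ℝ) ∣ ∏ r ∈ s, (X - C r) := by
  classical
  have hPR : P.map (algebraMap ℚ ℝ) ≠ 0 := by
    rwa [Ne, Polynomial.map_eq_zero]
  set R := P.map (algebraMap ℚ ℝ) with hR
  refine ⟨R.roots.toFinset, ?_, ?_⟩
  · intro r hr
    rw [Multiset.mem_toFinset, mem_roots hPR] at hr
    exact pos_roots hP h0 h1 h2 hr
  · have hprod : ∏ r ∈ R.roots.toFinset, (X - C r) = (R.roots.map (fun a => X - C a)).prod := by
      rw [Finset.prod, Multiset.toFinset_val, Multiset.dedup_eq_self.2 (nodup_roots hP h0 h1)]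
    rw [hprod]
    -- over the complex numbers
    have hsplit : R.Splits := by
      rw [splits_iff_card_roots]
      obtain ⟨g, hg⟩ := prod_multiset_X_sub_C_dvd R
      have hg0 : g ≠ 0 := by
        rintro rfl
        apply hPR
        rw [hg, mul_zero]
      have hm : ((R.roots.map (fun a => X - C a)).prod : ℝ[X]).natDegree = R.roots.card :=
        natDegree_multiset_prod_X_sub_C_eq_card _
      have hm0 : ((R.roots.map (fun a => X - C a)).prod : ℝ[X]) ≠ 0 := by
        intro h; apply hPR; rw [hg, h, zero_mul]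
      have hd : R.natDegree = R.roots.card + g.natDegree := by
        conv_lhs => rw [hg]
        rw [natDegree_mul hm0 hg0, hm]
      by_contra hne
      have hgd : 0 < g.natDegree := by omega
      -- a complex root of g
      have hgd' : (g.map (algebraMap ℝ ℂ)).degree ≠ 0 := by
        rw [degree_map]
        intro h
        rw [natDegree_eq_of_degree_eq_some (n := 0) (by rw [h]; rfl)] at hgd
        exact lt_irrefl _ hgd
      obtain ⟨z, hz⟩ := IsAlgClosed.exists_root (g.map (algebraMap ℝ ℂ)) hgd'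
      have hz' : aeval z g = 0 := by
        rw [IsRoot.def, eval_map_algebraMap] at hz
        exact hz
      have hzR : aeval z R = 0 := by
        rw [hg, map_mul, hz', mul_zero]
      have him := no_complex hP h0 h1 hzR
      have hzr : z = ((z.re : ℝ) : ℂ) := by
        apply Complex.ext <;> simp [him]
      have hgr : g.IsRoot z.re := by
        rw [hzr] at hz'
        rw [IsRoot.def]
        have h5 : aeval ((z.re : ℝ) : ℂ) g = ((eval z.re g : ℝ) : ℂ) := by
          have := aeval_algebraMap_apply ℂ z.re g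
          simpa using this
        rw [h5] at hz'
        exact_mod_cast hz'
      -- so z.re is a root of multiplicity at least two, or not in the list
      have hRr : R.IsRoot z.re := by
        rw [IsRoot.def, hg, eval_mul, hgr, mul_zero]
      have hmem : z.re ∈ R.roots := (mem_roots hPR).2 hRr
      have hdd : (X - C z.re) ^ 2 ∣ R := by
        rw [pow_two, hg]
        apply mul_dvd_mul
        · exact Multiset.dvd_prod (Multiset.mem_map_of_mem _ hmem)
        · exact dvd_iff_isRoot.2 hgr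
      have hcount := (le_rootMultiplicity_iff hPR).2 hdd
      have hnd := Multiset.nodup_iff_count_le_one.1 (nodup_roots hP h0 h1) z.re
      rw [← hR, count_roots] at hnd
      omega
    obtain ⟨u, hu⟩ : IsUnit (C R.leadingCoeff) := by
      rw [isUnit_C, isUnit_iff_ne_zero]
      exact leadingCoeff_ne_zero.2 hPR
    refine ⟨((u⁻¹ : ℝ[X]ˣ) : ℝ[X]), ?_⟩
    conv_rhs => rw [hsplit.eq_prod_roots]
    rw [← hu, mul_comm, ← mul_assoc, Units.inv_mul, one_mul]

end Roots

/-- **The transfer of positivity.** -/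
theorem transfer {L' L : ℚ[X] →ₗ[ℚ] ℚ} {P : ℚ[X]} (hP : P ≠ 0) (h0 : ∀ g, L' (P * g) = 0)
    (h1 : ∀ f, ¬ P ∣ f → 0 < L' (f * f)) (h2 : ∀ f, ¬ P ∣ f → 0 < L' (X * (f * f)))
    (k0 : ∀ g, L (P * g) = 0) (k1 : ∀ f, 0 ≤ L (X * (f * f))) (k2 : 0 < L X) : 0 < L 1 := by
  classical
  obtain ⟨s, hs, hdvd⟩ := exists_finset hP h0 h1 h2
  have hk0 : ∀ g : ℝ[X], (∏ r ∈ s, (X - C r)) ∣ g → rext L g = 0 := by
    intro g hg
    obtain ⟨h, rfl⟩ := hdvd.trans hg
    exact rext_mul_zero k0 h
  have hk1 : ∀ g : ℝ[X], 0 ≤ rext L (X * (g * g)) := by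
    intro g
    have := rext_nonneg (L := L) (Q := X) (n := g.natDegree + 1) (fun v => k1 _)
      (fun i => g.coeff i)
    rwa [pol_coeff g (Nat.lt_succ_self _), Polynomial.map_X] at this
  have hvan : ∀ g : ℝ[X], (∀ r ∈ s, eval r g = 0) → rext L g = 0 := by
    intro g hg
    apply hk0
    apply Finset.prod_dvd_of_coprime
    · intro a _ b _ hab
      exact pairwise_coprime_X_sub_C (K := ℝ) Function.injective_id hab
    · intro r hr
      exact dvd_iff_isRoot.2 (hg r hr)
  set ℓ : ℝ → ℝ[X] := Lagrange.basis s id with hℓ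
  have hℓ1 : ∀ r ∈ s, eval r (ℓ r) = 1 := by
    intro r hr
    exact Lagrange.eval_basis_self (v := id) Function.injective_id.injOn hr
  have hℓ0 : ∀ r, ∀ t ∈ s, r ≠ t → eval t (ℓ r) = 0 := by
    intro r t ht hrt
    exact Lagrange.eval_basis_of_ne (v := id) hrt ht
  have e1 : rext L 1 = ∑ r ∈ s, r⁻¹ * rext L (X * (ℓ r * ℓ r)) := by
    have h3 : rext L (1 - ∑ r ∈ s, r⁻¹ • (X * (ℓ r * ℓ r))) = 0 := by
      apply hvan
      intro t ht
      rw [eval_sub, eval_one, eval_finsetSum, Finset.sum_eq_single t]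
      · rw [eval_smul, eval_mul, eval_mul, eval_X, hℓ1 t ht, smul_eq_mul]
        field_simp [(hs t ht).ne']
        simp
      · intro r _ hrt
        rw [eval_smul, eval_mul, eval_mul, hℓ0 r t ht hrt]
        simp
      · intro h; exact absurd ht h
    rw [map_sub, map_sum, sub_eq_zero] at h3
    rw [h3]
    apply Finset.sum_congr rfl
    intro r _
    rw [map_smul, smul_eq_mul]
  have e2 : rext L X = ∑ r ∈ s, rext L (X * (ℓ r * ℓ r)) := by
    have h3 : rext L (X - ∑ r ∈ s, (X * (ℓ r * ℓ r))) = 0 := by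
      apply hvan
      intro t ht
      rw [eval_sub, eval_X, eval_finsetSum, Finset.sum_eq_single t]
      · rw [eval_mul, eval_mul, eval_X, hℓ1 t ht]
        simp
      · intro r _ hrt
        rw [eval_mul, eval_mul, hℓ0 r t ht hrt]
        simp
      · intro h; exact absurd ht h
    rw [map_sub, map_sum, sub_eq_zero] at h3
    exact h3
  have e3 : (0 : ℝ) < rext L X := by
    have := rext_map L X
    rw [Polynomial.map_X] at this
    rw [this]
    exact_mod_cast k2
  have e4 : (0 : ℝ) < rext L 1 := by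
    rw [e1]
    apply Finset.sum_pos'
    · intro r hr
      exact mul_nonneg (inv_nonneg.2 (hs r hr).le) (hk1 _)
    · by_contra hno
      push Not at hno
      have h4 : ∀ r ∈ s, rext L (X * (ℓ r * ℓ r)) = 0 := by
        intro r hr
        have h5 := hno r hr
        have h6 : 0 < r⁻¹ := inv_pos.2 (hs r hr)
        have h7 := hk1 (ℓ r)
        by_contra h8
        have h9 : 0 < rext L (X * (ℓ r * ℓ r)) := lt_of_le_of_ne h7 (Ne.symm h8)
        have := mul_pos h6 h9
        linarith
      rw [e2, Finset.sum_eq_zero h4] at e3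
      exact lt_irrefl _ e3
  have e5 := rext_map L 1
  rw [Polynomial.map_one] at e5
  rw [e5] at e4
  exact_mod_cast e4

end Pool.Agent.H60.HS
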