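import Pool.Agent.H60.HS.Transport
import Pool.Agent.H60.HS.Moment

/-!
# The operator attached to a family of correspondences, and the functionals defined by it
-/

open CategoryTheory AlgebraicGeometry Finset Polynomial

universe u v

namespace Pool.Agent.H60.HS

open Pool.Agent.H914 Pool.Agent.H914.VarClass Pool.Agent.H914.VarClass.Obj
  Pool.Agent.H914.WeilCohomology Pool.Agent.H281R3.HT Pool.Agent.W552 Pool.Agent.W539.Ker

section Abs

variable {K : Type*} [Field K] [CharZero K] {V : Type*} [AddCommGroup V] [Module K V]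

/-- A rational functional on rational polynomials. -/
lemma exists_functional {A : Type*} [AddCommGroup A] [Module K A] (Λ : A →ₗ[K] K)
    (φ : ℚ[X] →+ A) (hφ : ∀ (q : ℚ) f, φ (q • f) = (q : K) • φ f)
    (h : ∀ f, ∃ q : ℚ, Λ (φ f) = q) : ∃ L : ℚ[X] →ₗ[ℚ] ℚ, ∀ f, ((L f : ℚ) : K) = Λ (φ f) := by
  choose L hL using h
  refine ⟨⟨⟨L, ?_⟩, ?_⟩, fun f => (hL f).symm⟩
  · intro f g
    have h1 : ((L (f + g) : ℚ) : K) = ((L f + L g : ℚ) : K) := by
      rw [← hL, map_add, map_add, hL, hL, Rat.cast_add]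
    exact_mod_cast h1
  · intro q f
    have h1 : ((L (q • f) : ℚ) : K) = ((q * L f : ℚ) : K) := by
      rw [← hL, hφ, map_smul, hL, smul_eq_mul, Rat.cast_mul]
    exact_mod_cast h1

lemma ev_smul (α : Module.End K V) (q : ℚ) (f : ℚ[X]) : ev α (q • f) = (q : K) • ev α f := by
  rw [Polynomial.smul_eq_C_mul, map_mul, ev_C, smul_mul_assoc, one_mul]

/-- The polynomials annihilating an operator. -/
theorem exists_poly [Module.Finite K V] (α e : Module.End K V)
    (L : ℚ[X] →ₗ[ℚ] ℚ) (Λ : Module.End K V →ₗ[K] K)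
    (hL : ∀ f, ((L f : ℚ) : K) = Λ (ev α f * e)) (hpos : ∀ f, ev α f * e ≠ 0 → 0 < L (f * f)) :
    ∃ P : ℚ[X], P ≠ 0 ∧ ∀ f, P ∣ f ↔ ev α f * e = 0 := by
  classical
  let I : Ideal ℚ[X] :=
    { carrier := {f | ev α f * e = 0}
      add_mem' := by
        intro f g hf hg
        change ev α (f + g) * e = 0
        rw [map_add, add_mul, hf, hg, add_zero]
      zero_mem' := by
        change ev α 0 * e = 0
        rw [map_zero, zero_mul]
      smul_mem' := by
        intro c f hf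
        change ev α (c * f) * e = 0
        rw [map_mul, mul_assoc, hf, mul_zero] }
  have hI : ∀ f, f ∈ I ↔ ev α f * e = 0 := fun f => Iff.rfl
  obtain ⟨P, hP⟩ := (IsPrincipalIdealRing.principal I).principal
  refine ⟨P, ?_, fun f => by rw [← hI, hP]; exact Ideal.mem_span_singleton.symm⟩
  rintro rfl
  have hI0 : ∀ f, ev α f * e = 0 → f = 0 := by
    intro f hf
    have : f ∈ I := hf
    rw [hP] at this
    simpa using this
  -- the Hankel matrix
  set N := Module.finrank K (Module.End K V) + 1 with hN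
  let y : Fin N → Module.End K V := fun i => ev α (X ^ (i : ℕ)) * e
  have hdep : ¬ LinearIndependent K y := by
    intro hli
    have := hli.fintype_card_le_finrank
    rw [Fintype.card_fin] at this
    omega
  obtain ⟨c, hc, i0, hi0⟩ := Fintype.not_linearIndependent_iff.1 hdep
  let G : Matrix (Fin N) (Fin N) ℚ := Matrix.of fun i j => L (X ^ ((i : ℕ) + (j : ℕ)))
  have hG : (G.map (algebraMap ℚ K)).mulVec c = 0 := by
    funext i
    change ∑ j : Fin N, ((L (X ^ ((i : ℕ) + (j : ℕ))) : ℚ) : K) * c j = 0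
    have h1 := congrArg (fun z => Λ (ev α (X ^ (i : ℕ)) * z)) hc
    simp only [mul_zero, map_zero, Finset.mul_sum, map_sum] at h1
    rw [← h1]
    apply Finset.sum_congr rfl
    intro j _
    rw [hL, mul_smul_comm, map_smul, smul_eq_mul, mul_comm, ← mul_assoc, ← map_mul, ← pow_add]
  have hdet : (G.map (algebraMap ℚ K)).det = 0 := by
    apply Matrix.exists_mulVec_eq_zero_iff.1
    refine ⟨c, ?_, hG⟩
    intro h0
    exact hi0 (congrFun h0 i0)
  have hdet' : G.det = 0 := by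
    have h1 : ((algebraMap ℚ K) G.det) = 0 := by
      rw [RingHom.map_det]; exact hdet
    exact (map_eq_zero _).1 h1
  obtain ⟨v, hv, hGv⟩ := Matrix.exists_mulVec_eq_zero_iff.2 hdet'
  have h2 : ∀ i : Fin N, ∑ j : Fin N, (L (X ^ ((i : ℕ) + (j : ℕ)))) * v j = 0 := fun i =>
    congrFun hGv i
  have h3 := form_pol L 1 v v
  simp only [one_mul, h2, mul_zero, Finset.sum_const_zero] at h3
  have h4 : ev α (pol v) * e = 0 := by
    by_contra h5
    have := hpos _ h5
    rw [h3] at this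
    exact lt_irrefl _ this
  exact pol_ne_zero hv (hI0 _ h4)

end Abs

variable {k : Type u} [Field k] {𝒱 : VarClass k} {ops : CycleOps 𝒱}
  {W : WeilCohomology.{u, v} ops} {X Y : 𝒱.Obj}

/-- The algebraic operators commute with the parity. -/
lemma aop_par {t : W.H X →ₗ[W.K] W.H Y} (h : AOp W X Y t) (x : W.H X) :
    t (par (W.isInternal X) x) = par (W.isInternal Y) (t x) := by
  obtain ⟨c, hc, rfl⟩ := h
  refine gr_induction (W.isInternal X) (p := fun x => W.corr c (par (W.isInternal X) x) =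
    par (W.isInternal Y) (W.corr c x)) ?_ ?_ x
  swap
  · intro a b ha hb
    rw [map_add, map_add, ha, hb, map_add, map_add]
  intro i x hx
  refine AS.ind (p := fun c => W.corr c (par (W.isInternal X) x) =
    par (W.isInternal Y) (W.corr c x)) ?_ ?_ hc
  · intro j c hc
    have h1 := W.push_mem (snd X Y) (W.mul_mem (alg_gr hc) (W.map_mem (fst X Y) hx))
    rw [← corr_apply] at h1
    rw [par, scal_apply _ _ hx, map_smul]
    by_cases hm : ∃ l : ℕ, (l : ℤ) = ((2 * j + i : ℕ) : ℤ) + 2 * ((Y.dim : ℤ) - (X.prod Y).dim)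
    · obtain ⟨l, hl⟩ := hm
      rw [← hl, grZ_natCast] at h1
      rw [par, scal_apply _ _ h1]
      congr 1
      rcases Nat.even_or_odd i with h | h
      · rw [h.neg_one_pow, Even.neg_one_pow]
        rw [← Int.even_coe_nat, hl]
        push_cast
        have : Even (i : ℤ) := by exact_mod_cast h
        exact ((even_two_mul _).add this).add (even_two_mul _)
      · rw [h.neg_one_pow, Odd.neg_one_pow]
        rw [← Int.odd_coe_nat, hl]
        push_cast
        have : Odd (i : ℤ) := by exact_mod_cast h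
        exact ((even_two_mul _).add_odd this).add_even (even_two_mul _)
    · have hneg : ((2 * j + i : ℕ) : ℤ) + 2 * ((Y.dim : ℤ) - (X.prod Y).dim) < 0 := by
        by_contra h0
        exact hm ⟨_, Int.toNat_of_nonneg (by omega)⟩
      rw [grZ_of_neg hneg] at h1
      rw [(Submodule.mem_bot _).1 h1]
      simp
  · intro a b ha hb
    rw [corr_add, LinearMap.add_apply, LinearMap.add_apply, ha, hb, map_add]

/-- Symmetry of the relation of being adjoint. -/
lemma adj_symm {D : X.Cycles} {f : Module.End W.K (W.H X)} (G : Gd W X D f) {E : Y.Cycles}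
    {g : Module.End W.K (W.H Y)} (G' : Gd W Y E g) {t : W.H X →ₗ[W.K] W.H Y}
    {s : W.H Y →ₗ[W.K] W.H X} (ht : AOp W X Y t)
    (h : ∀ p q, bf W Y E g (t p) q = bf W X D f p (s q)) (q : W.H Y) (p : W.H X) :
    bf W X D f (s q) p = bf W Y E g q (t p) := by
  rw [G.sy (s q) p, ← h, G'.sy q (t p), aop_par ht]

/-- Positivity of the trace form. -/
theorem trace_pos {P Q : Polarized 𝒱} {f : Module.End W.K (W.H P.X)}
    (G : Gd W P.X P.D f) {g : Module.End W.K (W.H Q.X)} (G' : Gd W Q.X Q.D g) {m : ℤ}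
    {t : W.H P.X →ₗ[W.K] W.H Q.X} (ht : AOp W P.X Q.X t) (hm : Hm W m t)
    {s : W.H Q.X →ₗ[W.K] W.H P.X}
    (h : ∀ p q, bf W Q.X Q.D g (t p) q = bf W P.X P.D f p (s q))
    (hH : ∀ i l : ℕ, (2 * l : ℤ) = P.X.dim + Q.X.dim + m → i ≤ l → i + l ≤ P.X.dim + Q.X.dim →
      HodgeTypeIn W (P.prod ops Q) i) :
    ∃ q : ℚ, 0 ≤ q ∧ (t ≠ 0 → 0 < q) ∧ LinearMap.trace W.K (W.H P.X) (s ∘ₗ t) = q := by
  obtain ⟨c, hc, rfl⟩ := ht
  have F : Fr W (P.prod ops Q).X (P.prod ops Q).D (extSum W f g) := G.fr.prod G'.fr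
  obtain ⟨q, hq0, hq1, hq2⟩ := bf_pos_wt (P := P.prod ops Q) F (m := m) (x := c) (by
    intro i l hl hi hil
    exact hH i l (by rw [hl]; push_cast [Polarized.prod, dim_prod]; ring) hi hil) hc
    (hm_corr.1 hm)
  refine ⟨q, hq0, ?_, ?_⟩
  · intro h0
    apply hq1
    rintro rfl
    exact h0 (corr_zero W)
  · rw [G.trace_corr G' hc hc h]
    exact hq2

/-- A family of correspondences together with their adjoints. -/
structure Sys (W : WeilCohomology.{u, v} ops) (M : Polarized 𝒱) {ι : Type*}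
    (Y : ι → Polarized 𝒱) (f : Module.End W.K (W.H M.X)) (g : ∀ a, Module.End W.K (W.H (Y a).X))
    (t : ∀ a, W.H M.X →ₗ[W.K] W.H (Y a).X) (s : ∀ a, W.H (Y a).X →ₗ[W.K] W.H M.X)
    (m : ι → ℤ) : Prop where
  gM : Gd W M.X M.D f
  gY : ∀ a, Gd W (Y a).X (Y a).D (g a)
  ht : ∀ a, AOp W M.X (Y a).X (t a)
  hs : ∀ a, AOp W (Y a).X M.X (s a)
  adj : ∀ a p q, bf W (Y a).X (Y a).D (g a) (t a p) q = bf W M.X M.D f p (s a q)
  hm : ∀ a, Hm W (m a) (t a)

namespace Sys

variable {M : Polarized 𝒱} {ι : Type*} [Fintype ι] {Y : ι → Polarized 𝒱}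
  {f : Module.End W.K (W.H M.X)} {g : ∀ a, Module.End W.K (W.H (Y a).X)}
  {t : ∀ a, W.H M.X →ₗ[W.K] W.H (Y a).X} {s : ∀ a, W.H (Y a).X →ₗ[W.K] W.H M.X}
  {m : ι → ℤ}

/-- The sum of the products `t† t`. -/
noncomputable def alpha (t : ∀ a, W.H M.X →ₗ[W.K] W.H (Y a).X)
    (s : ∀ a, W.H (Y a).X →ₗ[W.K] W.H M.X) : Module.End W.K (W.H M.X) := ∑ a, s a ∘ₗ t a

variable (S : Sys W M Y f g t s m)

include S

omit [Fintype ι] in
lemma hm_s (a : ι) : Hm W (-m a) (s a) := S.gM.hm_adj (S.gY a) (S.adj a) (S.hm a)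

omit [Fintype ι] in
lemma adj' (a : ι) (q : W.H (Y a).X) (p : W.H M.X) :
    bf W M.X M.D f (s a q) p = bf W (Y a).X (Y a).D (g a) q (t a p) :=
  adj_symm S.gM (S.gY a) (S.ht a) (S.adj a) q p

lemma alpha_aop : AOp W M.X M.X (alpha t s) :=
  AOp.ratSub.sum _ (fun a _ => (S.hs a).comp (S.ht a))

lemma alpha_hm : Hm W 0 (alpha t s) := by
  apply Hm.sum
  intro a _
  have := (S.hm_s a).comp (S.hm a)
  rwa [neg_add_cancel] at this

lemma alpha_self (x y : W.H M.X) :
    bf W M.X M.D f (alpha t s x) y = bf W M.X M.D f x (alpha t s y) := by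
  rw [alpha, LinearMap.sum_apply, LinearMap.sum_apply, map_sum, map_sum, LinearMap.sum_apply]
  apply Finset.sum_congr rfl
  intro a _
  rw [LinearMap.comp_apply, LinearMap.comp_apply, S.adj' a, S.adj a]

lemma ev_aop (p : ℚ[X]) : AOp W M.X M.X (ev (alpha t s) p) := by
  induction p using Polynomial.induction_on' with
  | add p q hp hq => rw [map_add]; exact hp.add hq
  | monomial n a =>
    rw [← C_mul_X_pow_eq_monomial, map_mul, ev_C, map_pow, ev_X, smul_mul_assoc, one_mul]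
    exact (S.alpha_aop.pow n).smul a

lemma ev_hm (p : ℚ[X]) : Hm W 0 (ev (alpha t s) p) := by
  induction p using Polynomial.induction_on' with
  | add p q hp hq => rw [map_add]; exact hp.add hq
  | monomial n a =>
    rw [← C_mul_X_pow_eq_monomial, map_mul, ev_C, map_pow, ev_X, smul_mul_assoc, one_mul]
    apply Hm.smul
    induction n with
    | zero => rw [pow_zero]; exact Hm.one
    | succ n ih =>
      rw [pow_succ']
      have := S.alpha_hm.comp ih
      rwa [zero_add] at this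

lemma ev_self (p : ℚ[X]) (x y : W.H M.X) :
    bf W M.X M.D f (ev (alpha t s) p x) y = bf W M.X M.D f x (ev (alpha t s) p y) := by
  induction p using Polynomial.induction_on' with
  | add p q hp hq =>
    rw [map_add, LinearMap.add_apply, LinearMap.add_apply, map_add, LinearMap.add_apply, hp, hq,
      map_add]
  | monomial n a =>
    rw [← C_mul_X_pow_eq_monomial, map_mul, ev_C, map_pow, ev_X, smul_mul_assoc, one_mul,
      LinearMap.smul_apply, LinearMap.smul_apply, map_smul, map_smul, LinearMap.smul_apply]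
    congr 1
    induction n generalizing x y with
    | zero => simp
    | succ n ih =>
      rw [pow_succ, Module.End.mul_apply, ih, S.alpha_self, ← Module.End.mul_apply (alpha t s),
        ← pow_succ', ← pow_succ]

/-- Positivity for one class. -/
theorem single_pos {P : ℚ[X]} (hP : P ≠ 0) {L' : ℚ[X] →ₗ[ℚ] ℚ} (h0 : ∀ g, L' (P * g) = 0)
    (h1 : ∀ f, ¬ P ∣ f → 0 < L' (f * f)) (h2 : ∀ f, ¬ P ∣ f → 0 < L' (Polynomial.X * (f * f)))
    {n : ℤ} {x : W.H M.X} (hx : AS W M.X x)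
    (hn : wt (W.isInternal M.X) M.X.dim x = (n : W.K) • x)
    (hPx : ev (alpha t s) P x = 0) (hinj : ∃ a, t a x ≠ 0)
    (hH : ∀ a, ∀ i l : ℕ, (2 * l : ℤ) = (Y a).X.dim + (m a + n) → i ≤ l → i + l ≤ (Y a).X.dim →
      HodgeTypeIn W (Y a) i) :
    ∃ q : ℚ, 0 < q ∧ bf W M.X M.D f x x = q := by
  obtain ⟨L, hL⟩ := exists_functional (K := W.K) ((bf W M.X M.D f x) ∘ₗ LinearMap.applyₗ x)
    (ev (alpha t s)).toAddMonoidHom (fun q p => ev_smul _ q p)
    (fun p => S.gM.fr.bf_rat hx ((S.ev_aop p).apply hx))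
  have hL' : ∀ p, ((L p : ℚ) : W.K) = bf W M.X M.D f x (ev (alpha t s) p x) := hL
  -- the value on `X p ^ 2`
  have key : ∀ p : ℚ[X], ∃ q : ι → ℚ, (∀ a, 0 ≤ q a) ∧
      (∀ a, t a (ev (alpha t s) p x) ≠ 0 → 0 < q a) ∧ L (Polynomial.X * (p * p)) = ∑ a, q a := by
    intro p
    set y := ev (alpha t s) p x with hy
    have hyA : AS W M.X y := (S.ev_aop p).apply hx
    have hyw : wt (W.isInternal M.X) M.X.dim y = (n : W.K) • y := by
      rw [hy, (S.ev_hm p).apply, hn, map_smul]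
      simp
    have hpos : ∀ a, ∃ q : ℚ, 0 ≤ q ∧ (t a y ≠ 0 → 0 < q) ∧
        bf W (Y a).X (Y a).D (g a) (t a y) (t a y) = q := by
      intro a
      refine bf_pos_wt (S.gY a).fr (m := m a + n) (hH a) ((S.ht a).apply hyA) ?_
      rw [(S.hm a).apply, hyw, map_smul, ← add_smul]
      congr 1
      push_cast
      ring
    choose q hq0 hq1 hq2 using hpos
    refine ⟨q, hq0, hq1, ?_⟩
    have h3 : ((L (Polynomial.X * (p * p)) : ℚ) : W.K) = ((∑ a, q a : ℚ) : W.K) := by
      rw [hL', show Polynomial.X * (p * p) = p * (Polynomial.X * p) by ring, map_mul,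
        Module.End.mul_apply, ← S.ev_self, map_mul, Module.End.mul_apply, ev_X, ← hy, alpha,
        LinearMap.sum_apply, map_sum, Rat.cast_sum]
      apply Finset.sum_congr rfl
      intro a _
      rw [LinearMap.comp_apply, ← S.adj a, hq2]
    exact_mod_cast h3
  have hfin : 0 < L 1 := by
    refine transfer hP h0 h1 h2 ?_ ?_ ?_
    · intro p
      have h3 : ((L (P * p) : ℚ) : W.K) = 0 := by
        rw [hL', mul_comm, map_mul, Module.End.mul_apply, hPx, map_zero, map_zero]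
      exact_mod_cast h3
    · intro p
      obtain ⟨q, hq0, -, hq⟩ := key p
      rw [hq]
      exact Finset.sum_nonneg (fun a _ => hq0 a)
    · obtain ⟨q, hq0, hq1, hq⟩ := key 1
      rw [mul_one, mul_one] at hq
      rw [hq]
      obtain ⟨a, ha⟩ := hinj
      exact Finset.sum_pos' (fun a _ => hq0 a) ⟨a, Finset.mem_univ _, hq1 a (by
        rwa [map_one, Module.End.one_apply])⟩
  refine ⟨L 1, hfin, ?_⟩
  rw [hL', map_one, Module.End.one_apply]

/-- Positivity for one class on a product. -/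
theorem prod_pos {P : ℚ[X]} (hP : P ≠ 0) {L' : ℚ[X] →ₗ[ℚ] ℚ} (h0 : ∀ g, L' (P * g) = 0)
    (h1 : ∀ f, ¬ P ∣ f → 0 < L' (f * f)) (h2 : ∀ f, ¬ P ∣ f → 0 < L' (Polynomial.X * (f * f)))
    {Z : Polarized 𝒱} {h : Module.End W.K (W.H Z.X)} (G : Gd W Z.X Z.D h)
    {n : ℤ} {c : W.H Z.X →ₗ[W.K] W.H M.X} (hc : AOp W Z.X M.X c) (hn : Hm W n c)
    {c' : W.H M.X →ₗ[W.K] W.H Z.X} (hc' : AOp W M.X Z.X c')
    (hcc : ∀ p q, bf W M.X M.D f (c p) q = bf W Z.X Z.D h p (c' q))
    (hPc : ev (alpha t s) P ∘ₗ c = 0) (hinj : ∃ a, t a ∘ₗ c ≠ 0)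
    (hH : ∀ a, ∀ i l : ℕ, (2 * l : ℤ) = Z.X.dim + (Y a).X.dim + (m a + n) → i ≤ l →
      i + l ≤ Z.X.dim + (Y a).X.dim → HodgeTypeIn W (Z.prod ops (Y a)) i) :
    ∃ q : ℚ, 0 < q ∧ LinearMap.trace W.K (W.H Z.X) (c' ∘ₗ c) = q := by
  obtain ⟨L, hL⟩ := exists_functional (K := W.K)
    ((LinearMap.trace W.K (W.H Z.X)) ∘ₗ ((LinearMap.llcomp W.K _ _ _ c') ∘ₗ
      (LinearMap.lcomp W.K _ c)))
    (ev (alpha t s)).toAddMonoidHom (fun q p => ev_smul _ q p)
    (fun p => G.trace_rat (hc'.comp ((S.ev_aop p).comp hc)))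
  have hL' : ∀ p, ((L p : ℚ) : W.K) =
      LinearMap.trace W.K (W.H Z.X) (c' ∘ₗ (ev (alpha t s) p ∘ₗ c)) := hL
  have key : ∀ p : ℚ[X], ∃ q : ι → ℚ, (∀ a, 0 ≤ q a) ∧
      (∀ a, t a ∘ₗ (ev (alpha t s) p ∘ₗ c) ≠ 0 → 0 < q a) ∧
      L (Polynomial.X * (p * p)) = ∑ a, q a := by
    intro p
    set y := ev (alpha t s) p ∘ₗ c with hy
    have hyA : AOp W Z.X M.X y := (S.ev_aop p).comp hc
    have hyw : Hm W n y := by
      have := (S.ev_hm p).comp hn
      rwa [zero_add] at this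
    have hpos : ∀ a, ∃ q : ℚ, 0 ≤ q ∧ (t a ∘ₗ y ≠ 0 → 0 < q) ∧
        LinearMap.trace W.K (W.H Z.X) (((c' ∘ₗ ev (alpha t s) p) ∘ₗ s a) ∘ₗ (t a ∘ₗ y)) = q := by
      intro a
      refine trace_pos G (S.gY a) ((S.ht a).comp hyA) ((S.hm a).comp hyw) ?_ (hH a)
      intro p' q'
      rw [LinearMap.comp_apply, S.adj a, hy, LinearMap.comp_apply, S.ev_self, hcc]
      rfl
    choose q hq0 hq1 hq2 using hpos
    refine ⟨q, hq0, hq1, ?_⟩
    have h3 : ((L (Polynomial.X * (p * p)) : ℚ) : W.K) = ((∑ a, q a : ℚ) : W.K) := by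
      rw [hL', Rat.cast_sum, ← Finset.sum_congr rfl (fun a _ => hq2 a), ← map_sum]
      congr 1
      apply LinearMap.ext
      intro z
      rw [LinearMap.comp_apply, LinearMap.comp_apply,
        show Polynomial.X * (p * p) = p * (Polynomial.X * p) by ring, map_mul,
        Module.End.mul_apply, map_mul, Module.End.mul_apply, ev_X, LinearMap.sum_apply, alpha,
        LinearMap.sum_apply, map_sum, map_sum]
      rfl
    exact_mod_cast h3
  have hfin : 0 < L 1 := by
    refine transfer hP h0 h1 h2 ?_ ?_ ?_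
    · intro p
      have h3 : ((L (P * p) : ℚ) : W.K) = 0 := by
        rw [hL', mul_comm, map_mul]
        change LinearMap.trace W.K (W.H Z.X) (c' ∘ₗ (ev (alpha t s) p ∘ₗ
          (ev (alpha t s) P ∘ₗ c))) = 0
        rw [hPc, LinearMap.comp_zero, LinearMap.comp_zero, map_zero]
      exact_mod_cast h3
    · intro p
      obtain ⟨q, hq0, -, hq⟩ := key p
      rw [hq]
      exact Finset.sum_nonneg (fun a _ => hq0 a)
    · obtain ⟨q, hq0, hq1, hq⟩ := key 1
      rw [mul_one, mul_one] at hq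
      rw [hq]
      obtain ⟨a, ha⟩ := hinj
      exact Finset.sum_pos' (fun a _ => hq0 a) ⟨a, Finset.mem_univ _, hq1 a (by
        rw [map_one]; exact ha)⟩
  refine ⟨L 1, hfin, ?_⟩
  rw [hL', map_one]
  rfl

end Sys

end Pool.Agent.H60.HS
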