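import Pool.Graph.R_seed8.H281R3.HT.Defs

/-!
# Transfer of the standard conjecture of Hodge type: definitions
-/

open CategoryTheory AlgebraicGeometry

universe u v u' v'

namespace Pool.Agent.H60.HS

open Pool.Agent.H914 Pool.Agent.H914.VarClass Pool.Agent.H914.VarClass.Obj
  Pool.Agent.H914.WeilCohomology Pool.Agent.H281R3.HT

section Alg

variable {K' : Type*} [Field K'] {K : Type*} [Field K] {A' : Type*} [Ring A'] [Algebra K' A']
  {A : Type*} [Ring A] [Algebra K A]

/-- The isomorphism `e` of rings is semilinear with respect to `σ`. -/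
def IsSemilin (σ : K' ≃+* K) (e : A' ≃+* A) : Prop := ∀ (r : K') (x : A'), e (r • x) = σ r • e x

/-- An isomorphism of the graded `K'`-algebra `A'` with the graded `K`-algebra `A`, semilinear with
respect to an isomorphism `σ` of the fields, which is compatible with the linear forms `tr'` and `tr`
and maps `c'` to `c`. -/
structure GradedIso (σ : K' ≃+* K) (gr' : ℕ → Submodule K' A') (gr : ℕ → Submodule K A)
    (tr' : A' →ₗ[K'] K') (tr : A →ₗ[K] K) (c' : A') (c : A) where
  /-- the isomorphism of rings -/
  e : A' ≃+* A
  smul : IsSemilin σ e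
  gr : ∀ (i : ℕ) (x : A'), x ∈ gr' i ↔ e x ∈ gr i
  tr : ∀ x : A', tr (e x) = σ (tr' x)
  div : e c' = c

/-- The image of an element under the isomorphism. -/
noncomputable def GradedIso.app {σ : K' ≃+* K} {gr' : ℕ → Submodule K' A'} {gr : ℕ → Submodule K A}
    {tr' : A' →ₗ[K'] K'} {tr : A →ₗ[K] K} {c' : A'} {c : A}
    (J : GradedIso σ gr' gr tr' tr c' c) (x : A') : A := J.e x

/-- The value of a linear map. -/
def applyLin {B : Type*} [Ring B] [Algebra K B] (T : A →ₗ[K] B) (x : A) : B := T x

end Alg

section

variable {k : Type u} [Field k] {𝒱 : VarClass k} {ops : CycleOps 𝒱}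

/-- The intersection number `(-1) ^ j (z · z · D ^ (n - 2 j))` of a cycle of codimension `j` on
the polarized variety `P = (X, D)`, `n = dim X`. -/
noncomputable def hodgeSq (ops : CycleOps 𝒱) (P : Polarized 𝒱) (j : ℕ) (z : P.X.Cycles) : ℚ :=
  (-1 : ℚ) ^ j * P.X.V.degCycle (ops.mul z (divPow ops P.D (P.X.dim - 2 * j) z))

/-- The class of the cycle `z` of codimension `j` on the polarized variety `P = (X, D)` is
primitive: the class of `D ^ (n - 2 j + 1) z`, `n = dim X`, is zero. -/
def PrimClass (W : WeilCohomology.{u, v} ops) (P : Polarized 𝒱) (j : ℕ) (z : P.X.Cycles) : Prop :=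
  W.cl P.X (divPow ops P.D (P.X.dim - 2 * j + 1) z) = 0

/-- The standard conjecture of Hodge type in the single codimension `j`, for the polarized variety
`P = (X, D)`: if `2 j ≤ n = dim X` and `z` is a cycle of codimension `j` whose class is primitive and
not zero, the sign of the intersection number `z · z · D ^ (n - 2 j)` is `(-1) ^ j`. -/
def HodgeTypeIn (W : WeilCohomology.{u, v} ops) (P : Polarized 𝒱) (j : ℕ) : Prop :=
  2 * j ≤ P.X.dim → ∀ z, P.X.IsCyc j z → PrimClass W P j z → W.cl P.X z ≠ 0 →
    0 < hodgeSq ops P j z

/-- Homological and numerical equivalence agree for the cycles of codimension `j` on `X`. -/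
def HomEqNumIn (W : WeilCohomology.{u, v} ops) (X : 𝒱.Obj) (j : ℕ) : Prop :=
  j ≤ X.dim → ∀ z, X.IsCyc j z →
    (∀ w, X.IsCyc (X.dim - j) w → X.V.degCycle (ops.mul z w) = 0) → W.cl X z = 0

/-- The standard conjecture of Hodge type for the cycles of codimension `j` on the polarized
variety `P`, and the equality of homological and numerical equivalence for these cycles. -/
def StdIn (W : WeilCohomology.{u, v} ops) (P : Polarized 𝒱) (j : ℕ) : Prop :=
  HodgeTypeIn W P j ∧ HomEqNumIn W P.X j

/-- The cycle `D` is a divisor for which the hard Lefschetz theorem and the Lefschetz standard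
conjecture hold. -/
structure IsLefschetz (W : WeilCohomology.{u, v} ops) (P : Polarized 𝒱) : Prop where
  isDivisor : P.X.IsCyc 1 P.D
  hardLefschetz : HardLefschetz W P.X P.D
  lefschetzB : LefschetzB W P.X P.D

/-- The cycles on the product `P × Q`. -/
abbrev CorrCycles (P Q : Polarized 𝒱) : Type u := (P.X.prod Q.X).Cycles

/-- The image in `H(Q)` of the class `x` in `H(P)` under the operator induced by the cycle `z` on
`P × Q`. -/
noncomputable def cycAct (W : WeilCohomology.{u, v} ops) (P Q : Polarized 𝒱)
    (z : CorrCycles P Q) (x : W.H P.X) : W.H Q.X :=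
  applyLin (W.corr (W.cl (P.X.prod Q.X) z)) x

/-- Algebraic correspondences from `M` to the `Y b`: cycles `z b` of codimension `p b` on
`M × Y b`. -/
structure CorrFamily {κ : Type*} (M : Polarized 𝒱) (Y : κ → Polarized 𝒱) where
  /-- the codimensions -/
  p : κ → ℕ
  /-- the cycles -/
  z : ∀ b, CorrCycles M (Y b)
  isCyc : ∀ b, (M.X.prod (Y b).X).IsCyc (p b) (z b)

/-- The operators in cohomology given by the correspondences have no common nonzero element of
the subspace `S` in their kernels. -/
def CorrFamily.InjOn {κ : Type*} {M : Polarized 𝒱} {Y : κ → Polarized 𝒱} (C : CorrFamily M Y)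
    (W : WeilCohomology.{u, v} ops) (S : Submodule W.K (W.H M.X)) : Prop :=
  ∀ x ∈ S, (∀ b, cycAct W M (Y b) (C.z b) x = 0) → x = 0

end

variable {k' : Type u'} [Field k'] {𝒱' : VarClass k'} {ops' : CycleOps 𝒱'}
  {k : Type u} [Field k] {𝒱 : VarClass k} {ops : CycleOps 𝒱}

/-- An isomorphism of the cohomology of the polarized variety `P'` over `k'` with the cohomology
of the polarized variety `P` over `k`, of the same dimension: an isomorphism of graded rings,
semilinear with respect to an isomorphism `σ` of the coefficient fields, which is compatible with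
the orientations and maps the class of the divisor to the class of the divisor. (In the intended
use `P'` and `P` are the geometric generic and the special fibre of a polarized smooth projective
scheme over a discrete valuation ring, and the isomorphism is given by the smooth and proper base
change theorem.) -/
structure CohIso (W' : WeilCohomology.{u', v'} ops') (W : WeilCohomology.{u, v} ops)
    (σ : W'.K ≃+* W.K) (P' : Polarized 𝒱') (P : Polarized 𝒱) where
  dim_eq : P'.X.dim = P.X.dim
  /-- the isomorphism -/
  iso : GradedIso σ (W'.gr P'.X) (W.gr P.X) (W'.tr P'.X) (W.tr P.X) (W'.cl P'.X P'.D)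
    (W.cl P.X P.D)

/-- The image of a cohomology class. -/
noncomputable def CohIso.app {W' : WeilCohomology.{u', v'} ops'} {W : WeilCohomology.{u, v} ops}
    {σ : W'.K ≃+* W.K} {P' : Polarized 𝒱'} {P : Polarized 𝒱} (c : CohIso W' W σ P' P)
    (x : W'.H P'.X) : W.H P.X :=
  c.iso.app x

/-- The operators in cohomology given by the cycles `z'` on `P' × Q'` and `z` on `P × Q`
correspond to each other. -/
def SameOp {W' : WeilCohomology.{u', v'} ops'} {W : WeilCohomology.{u, v} ops}
    {σ : W'.K ≃+* W.K} {P' Q' : Polarized 𝒱'} {P Q : Polarized 𝒱} (c : CohIso W' W σ P' P)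
    (d : CohIso W' W σ Q' Q) (z' : CorrCycles P' Q') (z : CorrCycles P Q) : Prop :=
  ∀ x, cycAct W P Q z (c.app x) = d.app (cycAct W' P' Q' z' x)

/-- Specialization of algebraic correspondences: for every algebraic cycle on `P' × Q'` there is an
algebraic cycle of the same codimension on `P × Q` which induces the same operator in cohomology,
for the given isomorphisms of the cohomology. -/
def CorrSpecialize {W' : WeilCohomology.{u', v'} ops'} {W : WeilCohomology.{u, v} ops}
    {σ : W'.K ≃+* W.K} {P' Q' : Polarized 𝒱'} {P Q : Polarized 𝒱} (c : CohIso W' W σ P' P)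
    (d : CohIso W' W σ Q' Q) : Prop :=
  ∀ (p : ℕ) (z' : CorrCycles P' Q'), (P'.X.prod Q'.X).IsCyc p z' →
    ∃ z : CorrCycles P Q, (P.X.prod Q.X).IsCyc p z ∧ SameOp c d z' z

/-- The polarized varieties `P' i` over `k'` specialize to the polarized varieties `P i` over `k`:
isomorphisms of the cohomology such that all algebraic correspondences between the `P' i`
specialize to algebraic correspondences between the `P i`. -/
structure Specialization (W' : WeilCohomology.{u', v'} ops') (W : WeilCohomology.{u, v} ops)
    (σ : W'.K ≃+* W.K) {ι : Type*} (P' : ι → Polarized 𝒱') (P : ι → Polarized 𝒱) where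
  /-- the isomorphisms of the cohomology -/
  iso : ∀ i, CohIso W' W σ (P' i) (P i)
  isDivisor : ∀ i, (P i).X.IsCyc 1 (P i).D
  corr : ∀ i j, CorrSpecialize (iso i) (iso j)

end Pool.Agent.H60.HS
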