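import Pool.Agent.H60.HS.Core

/-!
# The transfer of the standard conjecture of Hodge type
-/

open CategoryTheory AlgebraicGeometry Finset Polynomial

universe u v u' v'

namespace Pool.Agent.H60.HS

open Pool.Agent.H914 Pool.Agent.H914.VarClass Pool.Agent.H914.VarClass.Obj
  Pool.Agent.H914.WeilCohomology Pool.Agent.H281R3.HT Pool.Agent.W552 Pool.Agent.W539.Ker

namespace Sys

variable {k : Type u} [Field k] {𝒱 : VarClass k} {ops : CycleOps 𝒱}
  {W : WeilCohomology.{u, v} ops} {M : Polarized 𝒱} {ι : Type*} [Fintype ι]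
  {Y : ι → Polarized 𝒱} {f : Module.End W.K (W.H M.X)}
  {g : ∀ a, Module.End W.K (W.H (Y a).X)}
  {t : ∀ a, W.H M.X →ₗ[W.K] W.H (Y a).X} {s : ∀ a, W.H (Y a).X →ₗ[W.K] W.H M.X}
  {m : ι → ℤ} (S : Sys W M Y f g t s m)

include S

/-- The annihilating polynomial and the positive functional. -/
theorem exists_data {e : Module.End W.K (W.H M.X)} (he : AOp W M.X M.X e) (hm : Hm W 0 e)
    (hee : e * e = e) (hes : ∀ x y, bf W M.X M.D f (e x) y = bf W M.X M.D f x (e y))
    (hec : e * alpha t s = alpha t s * e)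
    (hinj : ∀ x, e x = x → (∀ a, t a x = 0) → x = 0)
    (hHM : ∀ i, HodgeTypeIn W (M.prod ops M) i)
    (hHY : ∀ a i, HodgeTypeIn W (M.prod ops (Y a)) i) :
    ∃ (P : ℚ[X]) (L : ℚ[X] →ₗ[ℚ] ℚ), P ≠ 0 ∧ (∀ g, L (P * g) = 0) ∧
      (∀ f, ¬ P ∣ f → 0 < L (f * f)) ∧ (∀ f, ¬ P ∣ f → 0 < L (Polynomial.X * (f * f))) ∧
      ev (alpha t s) P * e = 0 := by
  have hev : ∀ p : ℚ[X], e * ev (alpha t s) p = ev (alpha t s) p * e := by
    intro p
    induction p using Polynomial.induction_on' with
    | add p q hp hq => rw [map_add, mul_add, add_mul, hp, hq]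
    | monomial n a =>
      rw [← C_mul_X_pow_eq_monomial, map_mul, ev_C, map_pow, ev_X, smul_mul_assoc, one_mul,
        mul_smul_comm, smul_mul_assoc]
      congr 1
      exact ((Commute.pow_right (show Commute e (alpha t s) from hec) n)).eq
  obtain ⟨L, hL⟩ := exists_functional (K := W.K)
    ((LinearMap.trace W.K (W.H M.X)) ∘ₗ (LinearMap.mulRight W.K e))
    (ev (alpha t s)).toAddMonoidHom (fun q p => ev_smul _ q p)
    (fun p => S.gM.trace_rat ((S.ev_aop p).mul he))
  have hL' : ∀ p, ((L p : ℚ) : W.K) = LinearMap.trace W.K (W.H M.X) (ev (alpha t s) p * e) := hL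
  have hadj : ∀ (p : ℚ[X]) (x y : W.H M.X), bf W M.X M.D f ((ev (alpha t s) p * e) x) y =
      bf W M.X M.D f x ((e * ev (alpha t s) p) y) := by
    intro p x y
    rw [Module.End.mul_apply, S.ev_self, hes, Module.End.mul_apply]
  have hcA : ∀ p : ℚ[X], AOp W M.X M.X (ev (alpha t s) p * e) := fun p => (S.ev_aop p).mul he
  have hcm : ∀ p : ℚ[X], Hm W 0 (ev (alpha t s) p * e) := by
    intro p
    have := (S.ev_hm p).comp hm
    rwa [zero_add] at this
  have hpos1 : ∀ p : ℚ[X], ev (alpha t s) p * e ≠ 0 → 0 < L (p * p) := by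
    intro p hp
    obtain ⟨q, -, hq1, hq2⟩ := trace_pos S.gM S.gM (hcA p) (hcm p) (hadj p)
      (fun i l _ _ _ => hHM i)
    have h1 : ((L (p * p) : ℚ) : W.K) = (q : W.K) := by
      rw [hL', ← hq2]
      congr 1
      change _ = (e * ev (alpha t s) p) * (ev (alpha t s) p * e)
      rw [map_mul, hev, mul_assoc, mul_assoc, ← mul_assoc e, hev, mul_assoc, hee]
    have h2 : L (p * p) = q := by exact_mod_cast h1
    rw [h2]
    exact hq1 hp
  have hpos2 : ∀ p : ℚ[X], ev (alpha t s) p * e ≠ 0 → 0 < L (Polynomial.X * (p * p)) := by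
    intro p hp
    have hq : ∀ a, ∃ q : ℚ, 0 ≤ q ∧ (t a ∘ₗ (ev (alpha t s) p * e) ≠ 0 → 0 < q) ∧
        LinearMap.trace W.K (W.H M.X) (((e * ev (alpha t s) p) ∘ₗ s a) ∘ₗ
          (t a ∘ₗ (ev (alpha t s) p * e))) = q := by
      intro a
      refine trace_pos S.gM (S.gY a) ((S.ht a).comp (hcA p)) ((S.hm a).comp (hcm p)) ?_
        (fun i l _ _ _ => hHY a i)
      intro x y
      rw [LinearMap.comp_apply, S.adj a, hadj]
      rfl
    choose q hq0 hq1 hq2 using hq
    have h1 : ((L (Polynomial.X * (p * p)) : ℚ) : W.K) = ((∑ a, q a : ℚ) : W.K) := by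
      rw [hL', Rat.cast_sum, ← Finset.sum_congr rfl (fun a _ => hq2 a), ← map_sum]
      congr 1
      have h2 : ∑ a, ((e * ev (alpha t s) p) ∘ₗ s a) ∘ₗ (t a ∘ₗ (ev (alpha t s) p * e)) =
          (e * ev (alpha t s) p) * (alpha t s * (ev (alpha t s) p * e)) := by
        apply LinearMap.ext
        intro z
        rw [LinearMap.sum_apply, Module.End.mul_apply, Module.End.mul_apply (alpha t s), alpha,
          LinearMap.sum_apply, map_sum]
        rfl
      rw [h2, hev p, show Polynomial.X * (p * p) = p * (Polynomial.X * p) by ring, map_mul,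
        map_mul, ev_X]
      have h3 : e * (alpha t s * (ev (alpha t s) p * e)) =
          alpha t s * (ev (alpha t s) p * e) := by
        rw [← mul_assoc, hec, mul_assoc, ← mul_assoc e, hev, mul_assoc, hee]
      rw [mul_assoc (ev (alpha t s) p) e, h3]
      simp only [mul_assoc]
    have h2 : L (Polynomial.X * (p * p)) = ∑ a, q a := by exact_mod_cast h1
    rw [h2]
    have hex : ∃ a, t a ∘ₗ (ev (alpha t s) p * e) ≠ 0 := by
      by_contra hno
      push Not at hno
      apply hp
      apply LinearMap.ext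
      intro x
      rw [LinearMap.zero_apply]
      apply hinj
      · rw [← Module.End.mul_apply, ← mul_assoc, hev, mul_assoc, hee]
      · intro a
        have := congrArg (fun F => F x) (hno a)
        exact this
    obtain ⟨a, ha⟩ := hex
    exact Finset.sum_pos' (fun a _ => hq0 a) ⟨a, Finset.mem_univ _, hq1 a ha⟩
  obtain ⟨P, hP, hPd⟩ := exists_poly (alpha t s) e L
    ((LinearMap.trace W.K (W.H M.X))) hL' hpos1
  have hP0 : ev (alpha t s) P * e = 0 := (hPd P).1 dvd_rfl
  refine ⟨P, L, hP, ?_, fun p hp => hpos1 p (fun h => hp ((hPd p).2 h)),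
    fun p hp => hpos2 p (fun h => hp ((hPd p).2 h)), hP0⟩
  intro p
  have h1 : ((L (P * p) : ℚ) : W.K) = 0 := by
    rw [hL', mul_comm, map_mul (ev (alpha t s)), mul_assoc, hP0, mul_zero, map_zero]
  exact_mod_cast h1

end Sys

variable {k' : Type u'} [Field k'] {𝒱' : VarClass k'} {ops' : CycleOps 𝒱'}
  {k : Type u} [Field k] {𝒱 : VarClass k} {ops : CycleOps 𝒱}
  {W' : WeilCohomology.{u', v'} ops'} {W : WeilCohomology.{u, v} ops} {σ : W'.K ≃+* W.K}

lemma opEnd_ev {P' : Polarized 𝒱'} {P : Polarized 𝒱} (c : CohIso W' W σ P' P)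
    (α : Module.End W'.K (W'.H P'.X)) (p : ℚ[X]) : c.opEnd (ev α p) = ev (c.opEnd α) p := by
  induction p using Polynomial.induction_on' with
  | add p q hp hq => rw [map_add, map_add, hp, hq, map_add]
  | monomial n a =>
    rw [← C_mul_X_pow_eq_monomial, map_mul, map_mul, map_mul, ev_C, ev_C, map_pow, map_pow,
      map_pow, ev_X, ev_X, c.opEnd_smul, map_ratCast, map_one]

/-- The projectors have weight zero. -/
lemma hm_proj {X : 𝒱.Obj} (j : ℕ) : Hm W 0 (proj (W.isInternal X) j) := by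
  rw [Hm]
  apply gr_ext (W.isInternal X)
  intro i a ha
  rw [LinearMap.comp_apply, LinearMap.add_apply, LinearMap.comp_apply, LinearMap.smul_apply,
    Int.cast_zero, zero_smul, add_zero, Fr.wt_gr ha, map_smul]
  by_cases hij : i = j
  · subst hij
    rw [proj_same _ ha, Fr.wt_gr ha]
  · rw [proj_ne _ ha hij, map_zero, smul_zero]

/-- The projectors commute with the operators of weight zero. -/
lemma proj_comm_of_hm {X : 𝒱.Obj} {α : Module.End W.K (W.H X)} (h : Hm W 0 α) (j : ℕ) :
    proj (W.isInternal X) j * α = α * proj (W.isInternal X) j := by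
  apply gr_ext (W.isInternal X)
  intro i a ha
  have h1 := h.apply a
  rw [Fr.wt_gr ha, Int.cast_zero, zero_smul, add_zero, map_smul] at h1
  have h2 := (mem_gr_of_wt (W.isInternal X) W_hbd h1).1 i rfl
  rw [Module.End.mul_apply, Module.End.mul_apply]
  by_cases hij : i = j
  · subst hij
    rw [proj_same _ ha, proj_same _ h2]
  · rw [proj_ne _ ha hij, proj_ne _ h2 hij, map_zero]

/-- The projectors are self-adjoint. -/
lemma proj_self {X : 𝒱.Obj} {D : X.Cycles} {f : Module.End W.K (W.H X)} (F : Fr W X D f)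
    (j : ℕ) (x y : W.H X) : bf W X D f (proj (W.isInternal X) j x) y =
      bf W X D f x (proj (W.isInternal X) j y) := by
  refine gr_induction (W.isInternal X) (p := fun x => bf W X D f (proj (W.isInternal X) j x) y =
    bf W X D f x (proj (W.isInternal X) j y)) ?_ ?_ x
  swap
  · intro a a' ha ha'
    rw [map_add, map_add, LinearMap.add_apply, ha, ha', map_add, LinearMap.add_apply]
  intro i a ha
  refine gr_induction (W.isInternal X) (p := fun y => bf W X D f (proj (W.isInternal X) j a) y =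
    bf W X D f a (proj (W.isInternal X) j y)) ?_ ?_ y
  swap
  · intro b b' hb hb'
    rw [map_add, hb, hb', map_add, map_add]
  intro l b hb
  by_cases hij : i = j
  · subst hij
    rw [proj_same _ ha]
    by_cases hlj : l = i
    · subst hlj
      rw [proj_same _ hb]
    · rw [proj_ne _ hb hlj, map_zero, F.bf_deg ha hb (Ne.symm hlj)]
  · rw [proj_ne _ ha hij, map_zero, LinearMap.zero_apply]
    by_cases hlj : l = j
    · subst hlj
      rw [proj_same _ hb, F.bf_deg ha hb hij]
    · rw [proj_ne _ hb hlj, map_zero]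

/-- The setting of the theorem on the special fibre, with everything that is needed of the general
fibre. -/
theorem main {M' : Polarized 𝒱'} {M : Polarized 𝒱} {ι : Type*} [Fintype ι]
    {Y' : ι → Polarized 𝒱'} {Y : ι → Polarized 𝒱}
    (hM' : IsLefschetz W' M') (hY' : ∀ a, IsLefschetz W' (Y' a))
    (hHM : HodgeType W' (M'.prod ops' M').X (M'.prod ops' M').D)
    (hHY : ∀ a, HodgeType W' (M'.prod ops' (Y' a)).X (M'.prod ops' (Y' a)).D)
    (cM : CohIso W' W σ M' M) (cY : ∀ a, CohIso W' W σ (Y' a) (Y a))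
    (hM : M.X.IsCyc 1 M.D) (hY : ∀ a, (Y a).X.IsCyc 1 (Y a).D)
    (sMM : CorrSpecialize cM cM) (sMY : ∀ a, CorrSpecialize cM (cY a))
    (sYM : ∀ a, CorrSpecialize (cY a) cM) (sYY : ∀ a, CorrSpecialize (cY a) (cY a))
    (p : ι → ℕ) (z' : ∀ a, (M'.X.prod (Y' a).X).Cycles)
    (hz' : ∀ a, (M'.X.prod (Y' a).X).IsCyc (p a) (z' a)) :
    (∀ j, (∀ x ∈ W'.gr M'.X (2 * j), (∀ a, W'.corr (W'.cl _ (z' a)) x = 0) → x = 0) →
      (∀ a i, i + M.X.dim ≤ j + p a → i + j + p a ≤ M.X.dim + (Y a).X.dim →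
        HodgeTypeIn W (Y a) i) →
      HodgeTypeIn W M j ∧ HomEqNumIn W M.X j) ∧
    ((∀ x, (∀ a, W'.corr (W'.cl _ (z' a)) x = 0) → x = 0) →
      ∀ Z : Polarized 𝒱, IsLefschetz W Z → ∀ j,
        (∀ a i, i + M.X.dim ≤ j + p a →
          i + j + p a ≤ Z.X.dim + M.X.dim + (Y a).X.dim → HodgeTypeIn W (Z.prod ops (Y a)) i) →
        HodgeTypeIn W (Z.prod ops M) j ∧ HomEqNumIn W (Z.prod ops M).X j) := by
  classical
  obtain ⟨f', GM'⟩ := exists_gd hM'.isDivisor hM'.hardLefschetz hM'.lefschetzB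
  choose g' GY' using fun a =>
    exists_gd (hY' a).isDivisor (hY' a).hardLefschetz (hY' a).lefschetzB
  -- the correspondences on the general fibre
  set t' : ∀ a, W'.H M'.X →ₗ[W'.K] W'.H (Y' a).X := fun a => W'.corr (W'.cl _ (z' a)) with ht'
  have ht'A : ∀ a, AOp W' M'.X (Y' a).X (t' a) := fun a =>
    ⟨_, AS.of ⟨z' a, hz' a, rfl⟩, rfl⟩
  choose s' hs'A hs'adj using fun a => GM'.adj (GY' a) (ht'A a)
  set m : ι → ℤ := fun a => 2 * p a - M.X.dim - (Y a).X.dim with hm
  have hmt : ∀ a, Hm W' (m a) (t' a) := by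
    intro a
    rw [ht', hm_corr, Fr.wt_gr (W'.cl_mem (hz' a))]
    congr 1
    rw [hm, dim_prod, cM.dim_eq, (cY a).dim_eq]
    push_cast
    ring
  have S' : Sys W' M' Y' f' g' t' s' m := ⟨GM', GY', ht'A, hs'A, hs'adj, hmt⟩
  -- the special fibre
  set f := cM.opEnd f' with hf
  set g := fun a => (cY a).opEnd (g' a) with hg
  set t : ∀ a, W.H M.X →ₗ[W.K] W.H (Y a).X := fun a => CohIso.op cM (cY a) (t' a) with ht
  set s : ∀ a, W.H (Y a).X →ₗ[W.K] W.H M.X := fun a => CohIso.op (cY a) cM (s' a) with hs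
  have S : Sys W M Y f g t s m :=
    { gM := Gd_map cM sMM hM hM'.hardLefschetz GM'
      gY := fun a => Gd_map (cY a) (sYY a) (hY a) (hY' a).hardLefschetz (GY' a)
      ht := fun a => (sMY a).aop (ht'A a)
      hs := fun a => (sYM a).aop (hs'A a)
      adj := fun a => adj_map cM (cY a) GM'.fr (GY' a).fr (hs'adj a)
      hm := fun a => Hm_map cM (cY a) (hmt a) }
  have hα : cM.opEnd (Sys.alpha t' s') = Sys.alpha t s := by
    rw [CohIso.opEnd_apply, Sys.alpha, Sys.alpha, CohIso.op_sum]
    apply Finset.sum_congr rfl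
    intro a _
    rw [CohIso.op_comp cM (cY a) cM]
  have htinj : ∀ x', (∀ a, t a (cM.e x') = 0) → ∀ a, t' a x' = 0 := by
    intro x' h a
    have h1 := h a
    rw [ht] at h1
    change CohIso.op cM (cY a) (t' a) (cM.e x') = 0 at h1
    rw [CohIso.op_e] at h1
    exact (map_eq_zero_iff _ (cY a).e.injective).1 h1
  constructor
  · intro j hinj hHT
    obtain ⟨P, L', hP, h0, h1, h2, hPe⟩ := S'.exists_data
      (e := proj (W'.isInternal M'.X) (2 * j))
      (proj_aop hM'.isDivisor hM'.hardLefschetz hM'.lefschetzB _) (hm_proj _)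
      (proj_mul_proj _ _) (proj_self GM'.fr _) (proj_comm_of_hm S'.alpha_hm _)
      (by
        intro x hx hx0
        refine hinj x ?_ hx0
        rw [← hx]
        exact proj_mem _ _ _)
      (fun i hi z hz => hHM i hi z hz) (fun a i hi z hz => hHY a i hi z hz)
    have hPe2 : ev (Sys.alpha t s) P * proj (W.isInternal M.X) (2 * j) = 0 := by
      rw [← hα, ← opEnd_ev, ← cM.opEnd_proj, ← map_mul, hPe, map_zero]
    apply hodge_of_pos S.gM.fr
    intro x hx hx0
    have hxg := alg_gr hx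
    refine S.single_pos hP h0 h1 h2 (n := 2 * j - M.X.dim) (AS.of hx) ?_ ?_ ?_ ?_
    · rw [Fr.wt_gr hxg]
      congr 1
      push_cast
      ring
    · have := congrArg (fun F => F x) hPe2
      rw [Module.End.mul_apply, proj_same _ hxg] at this
      exact this
    · by_contra hno
      push Not at hno
      apply hx0
      obtain ⟨x', rfl⟩ := cM.e.surjective x
      rw [hinj x' ((cM.gr _ _).2 hxg) (htinj x' hno), map_zero]
    · intro a i l hl hi hil
      apply hHT a i
      · rw [hm] at hl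
        dsimp only at hl
        omega
      · rw [hm] at hl
        dsimp only at hl
        omega
  · intro hinj Z hZ j hHT
    obtain ⟨P, L', hP, h0, h1, h2, hPe⟩ := S'.exists_data (e := 1) AOp.one Hm.one
      (mul_one 1) (fun x y => rfl) (by rw [one_mul, mul_one])
      (fun x _ hx0 => hinj x hx0)
      (fun i hi z hz => hHM i hi z hz) (fun a i hi z hz => hHY a i hi z hz)
    rw [mul_one] at hPe
    have hPe2 : ev (Sys.alpha t s) P = 0 := by
      rw [← hα, ← opEnd_ev, hPe, map_zero]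
    obtain ⟨h, GZ⟩ := exists_gd hZ.isDivisor hZ.hardLefschetz hZ.lefschetzB
    have F : Fr W (Z.prod ops M).X (Z.prod ops M).D (extSum W h f) := GZ.fr.prod S.gM.fr
    apply hodge_of_pos F
    intro (x : W.H (Z.X.prod M.X)) (hx : x ∈ algClasses W (Z.X.prod M.X) j) hx0
    obtain ⟨c', hc', hcc⟩ := GZ.adj S.gM (u := W.corr x) ⟨x, AS.of hx, rfl⟩
    have hn : Hm W (2 * (j : ℤ) - Z.X.dim - M.X.dim) (W.corr x) := by
      rw [hm_corr, Fr.wt_gr (alg_gr hx)]
      congr 1
      rw [dim_prod]
      push_cast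
      ring
    obtain ⟨q, hq, hq'⟩ := S.prod_pos hP h0 h1 h2 GZ ⟨x, AS.of hx, rfl⟩ hn hc' hcc
      (by rw [hPe2, LinearMap.zero_comp]) (by
        by_contra hno
        push Not at hno
        apply hx0
        apply corr_inj
        apply LinearMap.ext
        intro y
        rw [LinearMap.zero_apply]
        obtain ⟨x', hx'⟩ := cM.e.surjective (W.corr x y)
        rw [← hx', hinj x' (htinj x' (fun a => ?_)), map_zero]
        rw [hx']
        exact congrArg (fun F => F y) (hno a)) (by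
        intro a i l hl hi hil
        apply hHT a i
        · rw [hm] at hl
          dsimp only at hl
          omega
        · rw [hm] at hl
          dsimp only at hl
          omega)
    refine ⟨q, hq, ?_⟩
    rw [← hq', GZ.trace_corr S.gM (AS.of hx) (AS.of hx) hcc]
    rfl

end Pool.Agent.H60.HS
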