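import Pool.Agent.H60.HS.Defs
import Pool.Graph.R_seed8.W539.Ker.Fam
import Pool.Graph.R_seed8.W539.Ker.Ops

/-!
# Positivity of the form on the algebraic classes of one codimension
-/

open CategoryTheory AlgebraicGeometry Finset

universe u v

namespace Pool.Agent.H60.HS

open Pool.Agent.H914 Pool.Agent.H914.VarClass Pool.Agent.H914.VarClass.Obj
  Pool.Agent.H914.WeilCohomology Pool.Agent.H281R3.HT Pool.Agent.W552 Pool.Agent.W539.Ker

variable {k : Type u} [Field k] {𝒱 : VarClass k} {ops : CycleOps 𝒱}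
  {W : WeilCohomology.{u, v} ops} {P : Polarized 𝒱} {f : Module.End W.K (W.H P.X)}

/-- Positivity of the form on the algebraic classes of codimension `l`. -/
theorem bf_pos_in (F : Fr W P.X P.D f) {l : ℕ}
    (hH : ∀ i ≤ l, i + l ≤ P.X.dim → HodgeTypeIn W P i) {x : W.H P.X}
    (hx : x ∈ algClasses W P.X l) (hx0 : x ≠ 0) :
    ∃ q : ℚ, 0 < q ∧ bf W P.X P.D f x x = q := by
  classical
  obtain ⟨v, hv, hs⟩ := (ap_alg F).decomp (mulLeft_isHom F.hD) W_hbd hx
  set L := LinearMap.mulLeft W.K (W.cl P.X P.D) with hL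
  have key : ∀ b ∈ range (l + 1), (L ^ b) (v b) = 0 ∨
      (l - b + l ≤ P.X.dim ∧ ∃ z, Primitive W P.X P.D (l - b) z ∧ v b = W.cl P.X z) := by
    intro b hb
    rw [Finset.mem_range] at hb
    obtain ⟨h1, h2, h3⟩ := hv b (by omega)
    by_cases h0 : (L ^ b) (v b) = 0
    · exact Or.inl h0
    right
    have hv0 : v b ≠ 0 := by rintro h; apply h0; rw [h, map_zero]
    have h4 := h2 hv0
    have h5 : b ≤ P.X.dim - 2 * (l - b) := by
      by_contra h6
      exact h0 (L_pow_gt (n := P.X.dim) (i := 2 * (l - b)) h3 (by omega))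
    obtain ⟨z, hz, hz'⟩ := h1
    refine ⟨by omega, z, ⟨hz, ?_⟩, hz'.symm⟩
    rw [cl_divPow, hz']; exact h3
  have hcross : ∀ b ∈ range (l + 1), ∀ b' ∈ range (l + 1), b ≠ b' →
      bf W P.X P.D f ((L ^ b) (v b)) ((L ^ b') (v b')) = 0 := by
    intro b hb b' hb' hne
    rcases key b hb with h0 | ⟨hn, z, hz, hvz⟩
    · rw [h0, map_zero, LinearMap.zero_apply]
    rcases key b' hb' with h0 | ⟨hn', z', hz', hvz'⟩
    · rw [h0, map_zero]
    rw [hvz, hvz']
    rw [Finset.mem_range] at hb hb'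
    exact bf_cross F (by omega) (by omega) (by omega) hz hz' (by omega) (by omega)
  have hdiag : ∀ b ∈ range (l + 1), ∃ q : ℚ, 0 ≤ q ∧ ((L ^ b) (v b) ≠ 0 → 0 < q) ∧
      bf W P.X P.D f ((L ^ b) (v b)) ((L ^ b) (v b)) = q := by
    intro b hb
    rcases key b hb with h0 | ⟨hn, z, hz, hvz⟩
    · exact ⟨0, le_rfl, fun h => absurd h0 h, by rw [h0]; simp⟩
    rw [Finset.mem_range] at hb
    have hbf := bf_same F (n := l - b) (by omega) hz hz (j := b) (by omega)
    rw [hvz]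
    by_cases hz0 : W.cl P.X z = 0
    · exact ⟨0, le_rfl, fun h => absurd (by rw [hz0, map_zero]) h, by rw [hz0]; simp⟩
    have hpos := hH (l - b) (by omega) (by omega) (by omega) z hz.1 hz.2 hz0
    have h2 : 0 < b.factorial * ((P.X.dim - 2 * (l - b) - b).factorial : ℚ)⁻¹ *
        pairing ops P.X P.D (l - b) z z := by
      apply mul_pos _ hpos
      positivity
    exact ⟨_, h2.le, fun _ => h2, hbf⟩
  choose! q hq0 hq1 hq2 using hdiag
  refine ⟨∑ b ∈ range (l + 1), q b, ?_, ?_⟩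
  · have hex : ∃ b ∈ range (l + 1), (L ^ b) (v b) ≠ 0 := by
      by_contra h0
      push Not at h0
      apply hx0
      rw [hs, Finset.sum_eq_zero h0]
    obtain ⟨b, hb, hb0⟩ := hex
    exact Finset.sum_pos' (fun b hb => hq0 b hb) ⟨b, hb, hq1 b hb hb0⟩
  · have h1 : bf W P.X P.D f x x = ∑ b ∈ range (l + 1), ∑ b' ∈ range (l + 1),
        bf W P.X P.D f ((L ^ b) (v b)) ((L ^ b') (v b')) := by
      conv_lhs => rw [hs]
      rw [map_sum (bf W P.X P.D f), LinearMap.sum_apply]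
      apply Finset.sum_congr rfl
      intro b _
      rw [map_sum]
    rw [h1, Rat.cast_sum]
    apply Finset.sum_congr rfl
    intro b hb
    rw [Finset.sum_eq_single b, hq2 b hb]
    · intro b' hb' hne
      exact hcross b hb b' hb' (Ne.symm hne)
    · intro h0; exact absurd hb h0

/-- The version for a class of given weight. -/
theorem bf_pos_wt (F : Fr W P.X P.D f) {m : ℤ}
    (hH : ∀ i l : ℕ, (2 * l : ℤ) = P.X.dim + m → i ≤ l → i + l ≤ P.X.dim → HodgeTypeIn W P i)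
    {x : W.H P.X} (hx : AS W P.X x) (hw : wt (W.isInternal P.X) P.X.dim x = (m : W.K) • x) :
    ∃ q : ℚ, 0 ≤ q ∧ (x ≠ 0 → 0 < q) ∧ bf W P.X P.D f x x = q := by
  rcases AS_wt hx hw with rfl | ⟨l, hl, hxl⟩
  · exact ⟨0, le_rfl, fun h => absurd rfl h, by simp⟩
  by_cases hx0 : x = 0
  · exact ⟨0, le_rfl, fun h => absurd hx0 h, by rw [hx0]; simp⟩
  obtain ⟨q, hq, hq'⟩ := bf_pos_in F (fun i hi hil => hH i l hl hi hil) hxl hx0
  exact ⟨q, hq.le, fun _ => hq, hq'⟩

lemma HodgeTypeIn.of (h : HodgeType W P.X P.D) (j : ℕ) : HodgeTypeIn W P j :=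
  fun hj z hz => h j hj z hz

/-- The consequences of positivity. -/
theorem hodge_of_pos (F : Fr W P.X P.D f) {j : ℕ}
    (h : ∀ x ∈ algClasses W P.X j, x ≠ 0 → ∃ q : ℚ, 0 < q ∧ bf W P.X P.D f x x = q) :
    HodgeTypeIn W P j ∧ HomEqNumIn W P.X j := by
  constructor
  · intro hj z hz hp h0
    exact (F.hodge hz (fun h1 => h _ ⟨z, hz, rfl⟩ h1)).1 hj hp h0
  · intro hj z hz hn
    exact (F.hodge hz (fun h1 => h _ ⟨z, hz, rfl⟩ h1)).2 hj hn

end Pool.Agent.H60.HS
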