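import Pool.Agent.H60.HS.Pos

/-!
# Transport of operators along an isomorphism of cohomology rings
-/

open CategoryTheory AlgebraicGeometry Finset Polynomial

universe u v u' v'

namespace Pool.Agent.H60.HS

open Pool.Agent.H914 Pool.Agent.H914.VarClass Pool.Agent.H914.VarClass.Obj
  Pool.Agent.H914.WeilCohomology Pool.Agent.H281R3.HT Pool.Agent.W552 Pool.Agent.W539.Ker

variable {k' : Type u'} [Field k'] {𝒱' : VarClass k'} {ops' : CycleOps 𝒱'}
  {k : Type u} [Field k] {𝒱 : VarClass k} {ops : CycleOps 𝒱}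
  {W' : WeilCohomology.{u', v'} ops'} {W : WeilCohomology.{u, v} ops} {σ : W'.K ≃+* W.K}
  {P' Q' R' : Polarized 𝒱'} {P Q R : Polarized 𝒱}

namespace CohIso

variable (c : CohIso W' W σ P' P) (d : CohIso W' W σ Q' Q) (g : CohIso W' W σ R' R)

/-- The isomorphism of rings. -/
abbrev e : W'.H P'.X ≃+* W.H P.X := c.iso.e

lemma smul (r : W'.K) (x : W'.H P'.X) : c.e (r • x) = σ r • c.e x := c.iso.smul r x

lemma gr (i : ℕ) (x : W'.H P'.X) : x ∈ W'.gr P'.X i ↔ c.e x ∈ W.gr P.X i := c.iso.gr i x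

lemma tr (x : W'.H P'.X) : W.tr P.X (c.e x) = σ (W'.tr P'.X x) := c.iso.tr x

lemma div : c.e (W'.cl P'.X P'.D) = W.cl P.X P.D := c.iso.div

lemma symm_smul (r : W.K) (x : W.H P.X) : c.e.symm (r • x) = σ.symm r • c.e.symm x := by
  rw [RingEquiv.symm_apply_eq, c.smul, RingEquiv.apply_symm_apply, RingEquiv.apply_symm_apply]

lemma symm_gr {i : ℕ} {x : W.H P.X} (hx : x ∈ W.gr P.X i) : c.e.symm x ∈ W'.gr P'.X i := by
  rw [c.gr, RingEquiv.apply_symm_apply]; exact hx

/-- Transport of operators. -/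
noncomputable def op (u : W'.H P'.X →ₗ[W'.K] W'.H Q'.X) : W.H P.X →ₗ[W.K] W.H Q.X where
  toFun x := d.e (u (c.e.symm x))
  map_add' x y := by rw [map_add, map_add, map_add]
  map_smul' r x := by
    rw [c.symm_smul, map_smul, d.smul, RingEquiv.apply_symm_apply, RingHom.id_apply]

lemma op_apply (u : W'.H P'.X →ₗ[W'.K] W'.H Q'.X) (x : W.H P.X) :
    op c d u x = d.e (u (c.e.symm x)) := rfl

@[simp] lemma op_e (u : W'.H P'.X →ₗ[W'.K] W'.H Q'.X) (x : W'.H P'.X) :
    op c d u (c.e x) = d.e (u x) := by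
  rw [op_apply, RingEquiv.symm_apply_apply]

lemma op_add (u w : W'.H P'.X →ₗ[W'.K] W'.H Q'.X) : op c d (u + w) = op c d u + op c d w := by
  apply LinearMap.ext
  intro x
  rw [op_apply, LinearMap.add_apply, LinearMap.add_apply, map_add, op_apply, op_apply]

lemma op_zero : op c d (0 : W'.H P'.X →ₗ[W'.K] W'.H Q'.X) = 0 := by
  apply LinearMap.ext
  intro x
  rw [op_apply, LinearMap.zero_apply, map_zero, LinearMap.zero_apply]

lemma op_smul (r : W'.K) (u : W'.H P'.X →ₗ[W'.K] W'.H Q'.X) : op c d (r • u) = σ r • op c d u := by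
  apply LinearMap.ext
  intro x
  rw [op_apply, LinearMap.smul_apply, LinearMap.smul_apply, d.smul, op_apply]

lemma op_comp (u : W'.H P'.X →ₗ[W'.K] W'.H Q'.X) (w : W'.H Q'.X →ₗ[W'.K] W'.H R'.X) :
    op c g (w ∘ₗ u) = op d g w ∘ₗ op c d u := by
  apply LinearMap.ext
  intro x
  rw [op_apply, LinearMap.comp_apply, LinearMap.comp_apply, op_apply c d, op_e]

lemma op_sum {ι : Type*} (s : Finset ι) (u : ι → (W'.H P'.X →ₗ[W'.K] W'.H Q'.X)) :
    op c d (∑ i ∈ s, u i) = ∑ i ∈ s, op c d (u i) := by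
  classical
  induction s using Finset.induction_on with
  | empty => rw [Finset.sum_empty, Finset.sum_empty, op_zero]
  | insert a s ha ih => rw [Finset.sum_insert ha, Finset.sum_insert ha, op_add, ih]

/-- Transport of endomorphisms. -/
noncomputable def opEnd : Module.End W'.K (W'.H P'.X) →+* Module.End W.K (W.H P.X) where
  toFun u := op c c u
  map_one' := by
    apply LinearMap.ext
    intro x
    rw [op_apply, Module.End.one_apply, RingEquiv.apply_symm_apply, Module.End.one_apply]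
  map_mul' u w := op_comp c c c w u
  map_zero' := op_zero c c
  map_add' := op_add c c

lemma opEnd_apply (u : Module.End W'.K (W'.H P'.X)) : c.opEnd u = op c c u := rfl

@[simp] lemma opEnd_e (u : Module.End W'.K (W'.H P'.X)) (x : W'.H P'.X) :
    c.opEnd u (c.e x) = c.e (u x) := op_e c c u x

lemma opEnd_smul (r : W'.K) (u : Module.End W'.K (W'.H P'.X)) :
    c.opEnd (r • u) = σ r • c.opEnd u := op_smul c c r u

lemma opEnd_scal (φ' : ℕ → W'.K) (φ : ℕ → W.K) (h : ∀ i, σ (φ' i) = φ i) :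
    c.opEnd (scal (W'.isInternal P'.X) φ') = scal (W.isInternal P.X) φ := by
  apply gr_ext (W.isInternal P.X)
  intro i a ha
  rw [opEnd_apply, op_apply, scal_apply _ _ (c.symm_gr ha), c.smul, h, scal_apply _ _ ha,
    RingEquiv.apply_symm_apply]

lemma opEnd_wt : c.opEnd (wt (W'.isInternal P'.X) P'.X.dim) = wt (W.isInternal P.X) P.X.dim := by
  rw [wt, wt]
  apply c.opEnd_scal
  intro i
  rw [c.dim_eq, map_ratCast]

lemma opEnd_par : c.opEnd (par (W'.isInternal P'.X)) = par (W.isInternal P.X) := by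
  rw [par, par]
  apply c.opEnd_scal
  intro i
  rw [map_pow, map_neg, map_one]

lemma opEnd_proj (j : ℕ) :
    c.opEnd (proj (W'.isInternal P'.X) j) = proj (W.isInternal P.X) j := by
  rw [proj, proj]
  apply c.opEnd_scal
  intro i
  split_ifs
  · exact map_one _
  · exact map_zero _

lemma opEnd_mulLeft (a : W'.H P'.X) :
    c.opEnd (LinearMap.mulLeft W'.K a) = LinearMap.mulLeft W.K (c.e a) := by
  apply LinearMap.ext
  intro x
  rw [opEnd_apply, op_apply, LinearMap.mulLeft_apply, LinearMap.mulLeft_apply, map_mul,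
    RingEquiv.apply_symm_apply]

lemma opEnd_L : c.opEnd (LinearMap.mulLeft W'.K (W'.cl P'.X P'.D)) =
    LinearMap.mulLeft W.K (W.cl P.X P.D) := by
  rw [opEnd_mulLeft, c.div]

lemma sl2_map {A B : Type*} [Ring A] [Ring B] (φ : A →+* B) {h e f : A} (t : Sl2 h e f) :
    Sl2 (φ h) (φ e) (φ f) where
  ef := by rw [← map_mul, ← map_mul, ← map_sub, t.ef]
  he := by rw [← map_mul, ← map_mul, ← map_sub, t.he, map_mul, map_ofNat]
  hf := by rw [← map_mul, ← map_mul, ← map_sub, t.hf, map_neg, map_mul, map_ofNat]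

lemma opEnd_wey {e f : Module.End W'.K (W'.H P'.X)} (he : IsNilpotent e) (hf : IsNilpotent f) :
    c.opEnd (wey e f) = wey (c.opEnd e) (c.opEnd f) := by
  let _ : Module ℚ (Module.End W'.K (W'.H P'.X)) :=
    Module.compHom (Module.End W'.K (W'.H P'.X)) (algebraMap ℚ W'.K)
  let _ : Module ℚ (Module.End W.K (W.H P.X)) :=
    Module.compHom (Module.End W.K (W.H P.X)) (algebraMap ℚ W.K)
  exact weyl_map c.opEnd he hf

lemma opEnd_st {f : Module.End W'.K (W'.H P'.X)} (F : Fr W' P'.X P'.D f) :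
    c.opEnd (st W' P'.X P'.D f) = st W P.X P.D (c.opEnd f) := by
  rw [st, st, star', star', map_mul, c.opEnd_wey F.sl2.nil_e F.sl2.nil_f, opEnd_L]
  congr 1
  apply c.opEnd_scal
  intro i
  rw [map_intCast]

/-- The forms agree. -/
lemma bf_e {f : Module.End W'.K (W'.H P'.X)} (F : Fr W' P'.X P'.D f) (a b : W'.H P'.X) :
    bf W P.X P.D (c.opEnd f) (c.e a) (c.e b) = σ (bf W' P'.X P'.D f a b) := by
  rw [bf_apply, bf_apply, ← c.tr, ← c.opEnd_st F, opEnd_e, map_mul c.e]

lemma pow_e (u : Module.End W'.K (W'.H P'.X)) (m : ℕ) (x : W'.H P'.X) :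
    (c.opEnd u ^ m) (c.e x) = c.e ((u ^ m) x) := by
  rw [← map_pow, opEnd_e]

include c in
lemma hardLef (h : HardLefschetz W' P'.X P'.D) : HardLefschetz W P.X P.D := by
  intro i hi
  have h1 := h i (by rw [c.dim_eq]; exact hi)
  rw [← c.opEnd_L, ← c.dim_eq]
  constructor
  · intro a ha h0
    have h2 := h1.1 (c.e.symm a) (c.symm_gr ha)
    have h3 := c.pow_e (LinearMap.mulLeft W'.K (W'.cl P'.X P'.D)) (P'.X.dim - i) (c.e.symm a)
    rw [RingEquiv.apply_symm_apply, h0] at h3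
    have h4 := h2 (by
      have := h3.symm
      rwa [map_eq_zero_iff _ c.e.injective] at this)
    rwa [map_eq_zero_iff _ c.e.symm.injective] at h4
  · intro b hb
    obtain ⟨a, ha, hab⟩ := h1.2 (c.e.symm b) (c.symm_gr hb)
    refine ⟨c.e a, (c.gr i a).1 ha, ?_⟩
    rw [pow_e, hab, RingEquiv.apply_symm_apply]

end CohIso

variable {c : CohIso W' W σ P' P} {d : CohIso W' W σ Q' Q}

/-- Specialization of algebraic operators. -/
lemma CorrSpecialize.aop (h : CorrSpecialize c d) {u : W'.H P'.X →ₗ[W'.K] W'.H Q'.X}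
    (hu : AOp W' P'.X Q'.X u) : AOp W P.X Q.X (CohIso.op c d u) := by
  obtain ⟨a, ha, rfl⟩ := hu
  refine AS.ind (p := fun a => AOp W P.X Q.X (CohIso.op c d (W'.corr a))) ?_ ?_ ha
  · rintro j _ ⟨z', hz', rfl⟩
    obtain ⟨z, hz, hzz⟩ := h j z' hz'
    refine ⟨W.cl _ z, AS.of ⟨z, hz, rfl⟩, ?_⟩
    apply LinearMap.ext
    intro x
    obtain ⟨y, rfl⟩ := c.e.surjective x
    rw [CohIso.op_e]
    exact hzz y
  · intro a b ha hb
    rw [corr_add, CohIso.op_add]
    exact ha.add hb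

lemma LefStr_map (c : CohIso W' W σ P' P) (hD : P.X.IsCyc 1 P.D)
    (hHL : HardLefschetz W' P'.X P'.D) {f : Module.End W'.K (W'.H P'.X)}
    (F : Fr W' P'.X P'.D f) :
    LefStr (W.isInternal P.X) P.X.dim (LinearMap.mulLeft W.K (W.cl P.X P.D)) (c.opEnd f) where
  hL := mulLeft_isHom hD
  hbd := W_hbd
  hHL := c.hardLef hHL
  sl2 := by
    have := CohIso.sl2_map c.opEnd F.sl2
    rwa [c.opEnd_wt, c.opEnd_L] at this

/-- The structure needed for the star operator specializes. -/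
lemma Gd_map (c : CohIso W' W σ P' P) (h : CorrSpecialize c c) (hD : P.X.IsCyc 1 P.D)
    (hHL : HardLefschetz W' P'.X P'.D) {f : Module.End W'.K (W'.H P'.X)}
    (G : Gd W' P'.X P'.D f) : Gd W P.X P.D (c.opEnd f) where
  fr := ⟨hD, (LefStr_map c hD hHL G.fr).sl2, h.aop G.fr.aop⟩
  ls := LefStr_map c hD hHL G.fr
  sa := by
    rw [← c.opEnd_st G.fr]
    exact h.aop G.sa
  pa := by
    rw [← c.opEnd_par]
    exact h.aop G.pa

/-- The adjoint specializes. -/
lemma adj_map (c : CohIso W' W σ P' P) (d : CohIso W' W σ Q' Q)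
    {f : Module.End W'.K (W'.H P'.X)} (F : Fr W' P'.X P'.D f)
    {g : Module.End W'.K (W'.H Q'.X)} (F' : Fr W' Q'.X Q'.D g)
    {u : W'.H P'.X →ₗ[W'.K] W'.H Q'.X} {w : W'.H Q'.X →ₗ[W'.K] W'.H P'.X}
    (h : ∀ p q, bf W' Q'.X Q'.D g (u p) q = bf W' P'.X P'.D f p (w q)) (p : W.H P.X)
    (q : W.H Q.X) : bf W Q.X Q.D (d.opEnd g) (CohIso.op c d u p) q =
      bf W P.X P.D (c.opEnd f) p (CohIso.op d c w q) := by
  obtain ⟨p, rfl⟩ := c.e.surjective p
  obtain ⟨q, rfl⟩ := d.e.surjective q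
  rw [CohIso.op_e, CohIso.op_e, d.bf_e F', c.bf_e F, h]

/-- Operators of a given weight. -/
lemma Hm_map (c : CohIso W' W σ P' P) (d : CohIso W' W σ Q' Q) {m : ℤ}
    {u : W'.H P'.X →ₗ[W'.K] W'.H Q'.X} (h : Hm W' m u) : Hm W m (CohIso.op c d u) := by
  have h1 := congrArg (CohIso.op c d) h
  rw [CohIso.op_comp c d d, CohIso.op_add, CohIso.op_comp c c d, CohIso.op_smul, map_intCast] at h1
  have h2 := c.opEnd_wt
  have h3 := d.opEnd_wt
  rw [CohIso.opEnd_apply] at h2 h3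
  rw [h2, h3] at h1
  exact h1

end Pool.Agent.H60.HS
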